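import Mathlib

/-!
# Self-similar weights for the two-weight problem of the maximal function

`s n` are the densities of the natural measures on the `n`-th generation of a Cantor set, `U` is a
weight supported in the gaps. The tailed condition holds uniformly in `n`.
-/

set_option autoImplicit false

open MeasureTheory Set Filter Topology
open scoped ENNReal NNReal

namespace Pool.Agent.Y893.TW

lemma meas_aff {f : ℝ → ℝ≥0∞} (hf : Measurable f) (t a : ℝ) :
    Measurable fun x : ℝ => f (t * x - a) := hf.comp (by fun_prop)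

lemma meas_sub {f : ℝ → ℝ≥0∞} (hf : Measurable f) (a : ℝ) :
    Measurable fun x : ℝ => f (x - a) := hf.comp (by fun_prop)

/-- affine change of variables -/
lemma lintegral_affine (f : ℝ → ℝ≥0∞) (hf : Measurable f) (t a : ℝ) (ht : 0 < t) :
    ∫⁻ x, f (t * x - a) = ENNReal.ofReal t⁻¹ * ∫⁻ x, f x := by
  have h1 : ∫⁻ x, f (t * x - a) = ∫⁻ y, f (y - a) ∂(Measure.map (t * ·) volume) :=
    (lintegral_map (f := fun y => f (y - a)) (meas_sub hf a)
      (by fun_prop : Measurable fun x : ℝ => t * x)).symm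
  rw [h1, Real.map_volume_mul_left ht.ne', lintegral_smul_measure, lintegral_sub_right_eq_self,
    abs_of_pos (inv_pos.2 ht), smul_eq_mul]

/-- the gap of generation `k` -/
noncomputable def h : ℕ → ℝ → ℝ≥0∞
  | 0 => (Ico (3 / 8 : ℝ) (5 / 8)).indicator 1
  | k + 1 => fun x => h k (8 * x - 1) + h k (8 * x - 6)

/-- the densities -/
noncomputable def s : ℕ → ℝ → ℝ≥0∞
  | 0 => (Ico (0 : ℝ) 1).indicator 1
  | n + 1 => fun x => 4 * s n (8 * x - 1) + 4 * s n (8 * x - 6)

/-- the weight -/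
noncomputable def U (x : ℝ) : ℝ≥0∞ := ∑' k, (4⁻¹ : ℝ≥0∞) ^ k * h k x

lemma h_succ (k : ℕ) (x : ℝ) : h (k + 1) x = h k (8 * x - 1) + h k (8 * x - 6) := rfl

lemma s_succ (n : ℕ) (x : ℝ) : s (n + 1) x = 4 * s n (8 * x - 1) + 4 * s n (8 * x - 6) := rfl

lemma measurable_h (k : ℕ) : Measurable (h k) := by
  induction k with
  | zero => exact measurable_one.indicator measurableSet_Ico
  | succ k ih =>
    exact (meas_aff ih 8 1).add (meas_aff ih 8 6)

lemma measurable_s (n : ℕ) : Measurable (s n) := by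
  induction n with
  | zero => exact measurable_one.indicator measurableSet_Ico
  | succ n ih =>
    exact ((meas_aff ih 8 1).const_mul 4).add ((meas_aff ih 8 6).const_mul 4)

lemma measurable_U : Measurable U :=
  Measurable.ennreal_tsum fun k => (measurable_h k).const_mul _

lemma h_supp (k : ℕ) (x : ℝ) (hx : h k x ≠ 0) : 0 ≤ x ∧ x < 1 := by
  induction k generalizing x with
  | zero =>
    have h1 : x ∈ Ico (3 / 8 : ℝ) (5 / 8) := by
      by_contra h1
      exact hx (indicator_of_notMem h1 _)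
    constructor <;> linarith [h1.1, h1.2]
  | succ k ih =>
    rw [h_succ] at hx
    by_cases h1 : h k (8 * x - 1) = 0
    · have h2 : h k (8 * x - 6) ≠ 0 := by
        intro h2; exact hx (by rw [h1, h2, add_zero])
      have h3 := ih _ h2
      constructor <;> linarith [h3.1, h3.2]
    · have h3 := ih _ h1
      constructor <;> linarith [h3.1, h3.2]

lemma s_supp (n : ℕ) (x : ℝ) (hx : s n x ≠ 0) : 0 ≤ x ∧ x < 1 := by
  induction n generalizing x with
  | zero =>
    have h1 : x ∈ Ico (0 : ℝ) 1 := by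
      by_contra h1
      exact hx (indicator_of_notMem h1 _)
    exact h1
  | succ k ih =>
    rw [s_succ] at hx
    by_cases h1 : s k (8 * x - 1) = 0
    · have h2 : s k (8 * x - 6) ≠ 0 := by
        intro h2; exact hx (by rw [h1, h2]; simp)
      have h3 := ih _ h2
      constructor <;> linarith [h3.1, h3.2]
    · have h3 := ih _ h1
      constructor <;> linarith [h3.1, h3.2]

lemma four_eight : (4 : ℝ≥0∞) * ENNReal.ofReal (8 : ℝ)⁻¹ = 2⁻¹ := by
  have h4 : (4 : ℝ≥0∞) = ENNReal.ofReal 4 := by norm_num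
  have h2 : (2 : ℝ≥0∞)⁻¹ = ENNReal.ofReal (1 / 2) := by
    rw [one_div, ENNReal.ofReal_inv_of_pos (by norm_num)]; norm_num
  rw [h4, h2, ← ENNReal.ofReal_mul (by norm_num)]
  congr 1; norm_num

lemma half_add_half (a : ℝ≥0∞) : 2⁻¹ * a + 2⁻¹ * a = a := by
  rw [← add_mul, ENNReal.inv_two_add_inv_two, one_mul]

lemma lintegral_s (n : ℕ) : ∫⁻ x, s n x = 1 := by
  induction n with
  | zero =>
    show ∫⁻ x, (Ico (0 : ℝ) 1).indicator 1 x = 1
    rw [lintegral_indicator_one measurableSet_Ico, Real.volume_Ico]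
    norm_num
  | succ n ih =>
    have hm := measurable_s n
    have e : ∀ a : ℝ, ∫⁻ x, 4 * s n (8 * x - a) = 2⁻¹ := by
      intro a
      rw [lintegral_const_mul _ (meas_aff hm 8 a),
        lintegral_affine _ hm 8 a (by norm_num), ih, mul_one, four_eight]
    have h1 : ∫⁻ x, s (n + 1) x = ∫⁻ x, (4 * s n (8 * x - 1) + 4 * s n (8 * x - 6)) := rfl
    rw [h1, lintegral_add_left ((meas_aff hm 8 1).const_mul 4),
      e, e, ENNReal.inv_two_add_inv_two]

lemma lintegral_h (k : ℕ) : ∫⁻ x, h k x = 4⁻¹ ^ (k + 1) := by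
  induction k with
  | zero =>
    show ∫⁻ x, (Ico (3 / 8 : ℝ) (5 / 8)).indicator 1 x = _
    rw [lintegral_indicator_one measurableSet_Ico, Real.volume_Ico, zero_add, pow_one]
    have : (4 : ℝ≥0∞) = ENNReal.ofReal 4 := by norm_num
    rw [this, ← ENNReal.ofReal_inv_of_pos (by norm_num)]
    congr 1; norm_num
  | succ k ih =>
    have hm := measurable_h k
    have e : ∀ a : ℝ, ∫⁻ x, h k (8 * x - a) = ENNReal.ofReal (8 : ℝ)⁻¹ * 4⁻¹ ^ (k + 1) := by
      intro a
      rw [lintegral_affine _ hm 8 a (by norm_num), ih]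
    have h1 : ∫⁻ x, h (k + 1) x = ∫⁻ x, (h k (8 * x - 1) + h k (8 * x - 6)) := rfl
    rw [h1, lintegral_add_left (meas_aff hm 8 1), e, e, ← add_mul,
      pow_succ _ (k + 1), mul_comm]
    congr 1
    have : (4 : ℝ≥0∞) = ENNReal.ofReal 4 := by norm_num
    rw [this, ← ENNReal.ofReal_inv_of_pos (by norm_num), ← ENNReal.ofReal_add (by norm_num)
      (by norm_num)]
    congr 1; norm_num

lemma U_eq (x : ℝ) : U x = h 0 x + (4⁻¹ * U (8 * x - 1) + 4⁻¹ * U (8 * x - 6)) := by
  unfold U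
  rw [tsum_eq_zero_add' ENNReal.summable, pow_zero, one_mul]
  congr 1
  rw [← ENNReal.tsum_mul_left, ← ENNReal.tsum_mul_left, ← ENNReal.tsum_add]
  refine tsum_congr fun k => ?_
  rw [h_succ, pow_succ]
  ring

lemma U_supp (x : ℝ) (hx : U x ≠ 0) : 0 ≤ x ∧ x < 1 := by
  by_contra hcon
  apply hx
  unfold U
  rw [ENNReal.tsum_eq_zero]
  intro k
  by_cases h1 : h k x = 0
  · rw [h1, mul_zero]
  · exact absurd (h_supp k x h1) hcon

lemma h_le_one (k : ℕ) (x : ℝ) : h k x ≤ 1 := by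
  induction k generalizing x with
  | zero =>
    show (Ico (3 / 8 : ℝ) (5 / 8)).indicator 1 x ≤ 1
    by_cases hx : x ∈ Ico (3 / 8 : ℝ) (5 / 8)
    · rw [indicator_of_mem hx]; simp
    · rw [indicator_of_notMem hx]; simp
  | succ k ih =>
    rw [h_succ]
    by_cases h1 : h k (8 * x - 1) = 0
    · rw [h1, zero_add]; exact ih _
    · have h2 := h_supp k _ h1
      have h3 : h k (8 * x - 6) = 0 := by
        by_contra h3
        have h4 := h_supp k _ h3
        linarith [h2.2, h4.1]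
      rw [h3, add_zero]; exact ih _

lemma partial_le (n : ℕ) (x : ℝ) : ∑ k ∈ Finset.range n, (4⁻¹ : ℝ≥0∞) ^ k * h k x ≤ 1 := by
  induction n generalizing x with
  | zero => simp
  | succ n ih =>
    rw [Finset.sum_range_succ']
    have e : ∑ k ∈ Finset.range n, (4⁻¹ : ℝ≥0∞) ^ (k + 1) * h (k + 1) x =
        4⁻¹ * ∑ k ∈ Finset.range n, (4⁻¹ : ℝ≥0∞) ^ k * h k (8 * x - 1) +
        4⁻¹ * ∑ k ∈ Finset.range n, (4⁻¹ : ℝ≥0∞) ^ k * h k (8 * x - 6) := by
      rw [Finset.mul_sum, Finset.mul_sum, ← Finset.sum_add_distrib]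
      refine Finset.sum_congr rfl fun k _ => ?_
      rw [h_succ, pow_succ]
      ring
    rw [e, pow_zero, one_mul]
    by_cases hx : x ∈ Ico (3 / 8 : ℝ) (5 / 8)
    · have z : ∀ a : ℝ, (a = 1 ∨ a = 6) →
          ∑ k ∈ Finset.range n, (4⁻¹ : ℝ≥0∞) ^ k * h k (8 * x - a) = 0 := by
        intro a ha
        refine Finset.sum_eq_zero fun k _ => ?_
        have : h k (8 * x - a) = 0 := by
          by_contra h1
          have h2 := h_supp k _ h1
          rcases ha with rfl | rfl <;> linarith [h2.1, h2.2, hx.1, hx.2]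
        rw [this, mul_zero]
      rw [z 1 (Or.inl rfl), z 6 (Or.inr rfl), mul_zero, add_zero, zero_add]
      exact h_le_one 0 x
    · have h0 : h 0 x = 0 := indicator_of_notMem hx _
      rw [h0, add_zero]
      calc _ ≤ (4⁻¹ : ℝ≥0∞) * 1 + 4⁻¹ * 1 := by gcongr <;> exact ih _
        _ ≤ 2⁻¹ * 1 + 2⁻¹ * 1 := by gcongr <;> norm_num
        _ = 1 := half_add_half 1

lemma U_le_one (x : ℝ) : U x ≤ 1 := by
  unfold U
  rw [ENNReal.tsum_eq_iSup_nat]
  exact iSup_le fun n => partial_le n x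

lemma U_le_ind (x : ℝ) : U x ≤ (Ico (0 : ℝ) 1).indicator 1 x := by
  by_cases hx : U x = 0
  · rw [hx]; exact bot_le
  · rw [indicator_of_mem (show x ∈ Ico (0 : ℝ) 1 from U_supp x hx)]
    exact U_le_one x

lemma lintegral_U : ∫⁻ x, U x ≤ 1 := by
  calc ∫⁻ x, U x ≤ ∫⁻ x, (Ico (0 : ℝ) 1).indicator 1 x := lintegral_mono U_le_ind
    _ = 1 := by
      rw [lintegral_indicator_one measurableSet_Ico, Real.volume_Ico]
      norm_num

/-- the tailed average of `U` -/
noncomputable def Φ (c l : ℝ) : ℝ≥0∞ := ∫⁻ x, U x / ENNReal.ofReal (l ^ 2 + (x - c) ^ 2)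

lemma meas_den (c l : ℝ) : Measurable fun x : ℝ => ENNReal.ofReal (l ^ 2 + (x - c) ^ 2) := by
  fun_prop

lemma Φ_le_of (c l d : ℝ) (hd : 0 < d) (H : ∀ x, 0 ≤ x → x < 1 → d ≤ l ^ 2 + (x - c) ^ 2) :
    Φ c l ≤ ENNReal.ofReal d⁻¹ := by
  unfold Φ
  calc ∫⁻ x, U x / ENNReal.ofReal (l ^ 2 + (x - c) ^ 2) ≤ ∫⁻ x, ENNReal.ofReal d⁻¹ * U x := by
        apply lintegral_mono
        intro x
        by_cases hx : U x = 0
        · simp [hx]
        · have h1 := U_supp x hx
          have h2 := H x h1.1 h1.2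
          show U x / ENNReal.ofReal (l ^ 2 + (x - c) ^ 2) ≤ ENNReal.ofReal d⁻¹ * U x
          rw [ENNReal.ofReal_inv_of_pos hd, mul_comm, ← div_eq_mul_inv]
          exact ENNReal.div_le_div_left (ENNReal.ofReal_le_ofReal h2) _
    _ = ENNReal.ofReal d⁻¹ * ∫⁻ x, U x := lintegral_const_mul _ measurable_U
    _ ≤ ENNReal.ofReal d⁻¹ * 1 := by gcongr; exact lintegral_U
    _ = _ := mul_one _

/-- self-similarity of `Φ` -/
lemma Φ_eq (c l : ℝ) : Φ c l = (∫⁻ x, h 0 x / ENNReal.ofReal (l ^ 2 + (x - c) ^ 2)) +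
    (2 * Φ (8 * c - 1) (8 * l) + 2 * Φ (8 * c - 6) (8 * l)) := by
  have key : ∀ a : ℝ, ∫⁻ x, 4⁻¹ * U (8 * x - a) / ENNReal.ofReal (l ^ 2 + (x - c) ^ 2) =
      2 * Φ (8 * c - a) (8 * l) := by
    intro a
    have h1 : ∀ x : ℝ, 4⁻¹ * U (8 * x - a) / ENNReal.ofReal (l ^ 2 + (x - c) ^ 2) =
        16 * (U (8 * x - a) / ENNReal.ofReal ((8 * l) ^ 2 + ((8 * x - a) - (8 * c - a)) ^ 2)) := by
      intro x
      have e1 : (8 * l) ^ 2 + ((8 * x - a) - (8 * c - a)) ^ 2 = 64 * (l ^ 2 + (x - c) ^ 2) := by ring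
      rw [e1, ENNReal.ofReal_mul (by norm_num)]
      have e2 : ENNReal.ofReal 64 = 64 := by norm_num
      rw [e2, div_eq_mul_inv, div_eq_mul_inv, ENNReal.mul_inv (Or.inl (by norm_num))
        (Or.inl (by norm_num))]
      have e3 : (4⁻¹ : ℝ≥0∞) = 16 * 64⁻¹ := by
        have a1 : (4 : ℝ≥0∞) = ENNReal.ofReal 4 := by norm_num
        have a2 : (16 : ℝ≥0∞) = ENNReal.ofReal 16 := by norm_num
        have a3 : (64 : ℝ≥0∞) = ENNReal.ofReal 64 := by norm_num
        rw [a1, a2, a3, ← ENNReal.ofReal_inv_of_pos (by norm_num),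
          ← ENNReal.ofReal_inv_of_pos (by norm_num), ← ENNReal.ofReal_mul (by norm_num)]
        congr 1; norm_num
      rw [e3]
      ring
    simp_rw [h1]
    have hm : Measurable fun y : ℝ => U y / ENNReal.ofReal ((8 * l) ^ 2 + (y - (8 * c - a)) ^ 2) :=
      measurable_U.div (meas_den _ _)
    rw [lintegral_const_mul _ (meas_aff hm 8 a),
      lintegral_affine _ hm 8 a (by norm_num), ← mul_assoc]
    have e4 : (16 : ℝ≥0∞) * ENNReal.ofReal (8 : ℝ)⁻¹ = 2 := by
      have a2 : (16 : ℝ≥0∞) = ENNReal.ofReal 16 := by norm_num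
      have a3 : (2 : ℝ≥0∞) = ENNReal.ofReal 2 := by norm_num
      rw [a2, a3, ← ENNReal.ofReal_mul (by norm_num)]
      congr 1; norm_num
    rw [e4]
    rfl
  have h2 : ∀ x : ℝ, U x / ENNReal.ofReal (l ^ 2 + (x - c) ^ 2) =
      h 0 x / ENNReal.ofReal (l ^ 2 + (x - c) ^ 2) +
      (4⁻¹ * U (8 * x - 1) / ENNReal.ofReal (l ^ 2 + (x - c) ^ 2) +
       4⁻¹ * U (8 * x - 6) / ENNReal.ofReal (l ^ 2 + (x - c) ^ 2)) := by
    intro x
    rw [U_eq x, ENNReal.add_div, ENNReal.add_div]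
  have m1 : Measurable fun x : ℝ => h 0 x / ENNReal.ofReal (l ^ 2 + (x - c) ^ 2) :=
    (measurable_h 0).div (meas_den _ _)
  have m2 : Measurable fun x : ℝ => 4⁻¹ * U (8 * x - 1) / ENNReal.ofReal (l ^ 2 + (x - c) ^ 2) :=
    ((meas_aff measurable_U 8 1).const_mul _).div (meas_den _ _)
  rw [← key 1, ← key 6, ← lintegral_add_left m2, ← lintegral_add_left m1]
  unfold Φ
  exact lintegral_congr h2

/-- the mass of an interval -/
noncomputable def S (n : ℕ) (a b : ℝ) : ℝ≥0∞ := ∫⁻ x in Icc a b, s n x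

lemma S_le_one (n : ℕ) (a b : ℝ) : S n a b ≤ 1 :=
  (setLIntegral_le_lintegral _ _).trans (lintegral_s n).le

lemma S_succ (n : ℕ) (a b : ℝ) :
    S (n + 1) a b = 2⁻¹ * S n (8 * a - 1) (8 * b - 1) + 2⁻¹ * S n (8 * a - 6) (8 * b - 6) := by
  have hm := measurable_s n
  have key : ∀ t : ℝ, ∫⁻ x in Icc a b, 4 * s n (8 * x - t) =
      2⁻¹ * S n (8 * a - t) (8 * b - t) := by
    intro t
    rw [← lintegral_indicator measurableSet_Icc]
    have e : ∀ x : ℝ, (Icc a b).indicator (fun x => 4 * s n (8 * x - t)) x =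
        4 * (Icc (8 * a - t) (8 * b - t)).indicator (s n) (8 * x - t) := by
      intro x
      by_cases hx : x ∈ Icc a b
      · have hx' : 8 * x - t ∈ Icc (8 * a - t) (8 * b - t) := by
          constructor <;> linarith [hx.1, hx.2]
        rw [indicator_of_mem hx, indicator_of_mem hx']
      · have hx' : 8 * x - t ∉ Icc (8 * a - t) (8 * b - t) := by
          intro h1; exact hx ⟨by linarith [h1.1], by linarith [h1.2]⟩
        rw [indicator_of_notMem hx, indicator_of_notMem hx', mul_zero]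
    simp_rw [e]
    have hm2 : Measurable ((Icc (8 * a - t) (8 * b - t)).indicator (s n)) :=
      hm.indicator measurableSet_Icc
    rw [lintegral_const_mul _ (meas_aff hm2 8 t),
      lintegral_affine _ hm2 8 t (by norm_num), ← mul_assoc, four_eight,
      lintegral_indicator measurableSet_Icc]
    rfl
  unfold S at *
  have h1 : ∫⁻ x in Icc a b, s (n + 1) x =
      ∫⁻ x in Icc a b, (4 * s n (8 * x - 1) + 4 * s n (8 * x - 6)) := rfl
  rw [h1, lintegral_add_left ((meas_aff hm 8 1).const_mul 4),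
    key 1, key 6]

lemma S_zero (n : ℕ) (a b : ℝ) (hab : b < 0 ∨ 1 ≤ a) : S n a b = 0 := by
  unfold S
  rw [setLIntegral_congr_fun (g := fun _ => 0) measurableSet_Icc]
  · simp
  · intro x hx
    by_contra h1
    have h2 := s_supp n x h1
    rcases hab with h3 | h3
    · linarith [hx.2, h2.1]
    · linarith [hx.1, h2.2]

end Pool.Agent.Y893.TW
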