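import Pool.Agent.Y893.TW.Main

/-!
# The two-weight counterexample for every exponent `p > 1`
-/

set_option autoImplicit false

open MeasureTheory Set Filter Topology
open scoped ENNReal NNReal

namespace Pool.Agent.Y893.TWP

open Pool.Agent.Y893.TW (h s S h_succ s_succ measurable_h measurable_s h_supp s_supp lintegral_s
  lintegral_h h_le_one S_le_one S_succ S_zero S_zero_le meas_aff lintegral_affine avg tsum_half)

/-- the ratio -/
noncomputable def ρ (p : ℝ) : ℝ≥0∞ := ENNReal.ofReal ((4 : ℝ) ^ (1 - p))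

/-- the weight -/
noncomputable def U (p x : ℝ) : ℝ≥0∞ := ∑' k, ρ p ^ k * h k x

lemma measurable_U (p : ℝ) : Measurable (U p) :=
  Measurable.ennreal_tsum fun k => (measurable_h k).const_mul _

lemma ρ_le_one (p : ℝ) (hp : 1 < p) : ρ p ≤ 1 := by
  unfold ρ
  rw [ENNReal.ofReal_le_one]
  exact Real.rpow_le_one_of_one_le_of_nonpos (by norm_num) (by linarith)

lemma U_eq (p x : ℝ) : U p x = h 0 x + (ρ p * U p (8 * x - 1) + ρ p * U p (8 * x - 6)) := by
  unfold U
  rw [tsum_eq_zero_add' ENNReal.summable, pow_zero, one_mul]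
  congr 1
  rw [← ENNReal.tsum_mul_left, ← ENNReal.tsum_mul_left, ← ENNReal.tsum_add]
  refine tsum_congr fun k => ?_
  rw [h_succ, pow_succ]
  ring

lemma U_supp (p x : ℝ) (hx : U p x ≠ 0) : 0 ≤ x ∧ x < 1 := by
  by_contra hcon
  apply hx
  unfold U
  rw [ENNReal.tsum_eq_zero]
  intro k
  by_cases h1 : h k x = 0
  · rw [h1, mul_zero]
  · exact absurd (h_supp k x h1) hcon

lemma partial_le (p : ℝ) (hp : 1 < p) (n : ℕ) (x : ℝ) :
    ∑ k ∈ Finset.range n, ρ p ^ k * h k x ≤ 1 := by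
  induction n generalizing x with
  | zero => simp
  | succ n ih =>
    rw [Finset.sum_range_succ']
    have e : ∑ k ∈ Finset.range n, ρ p ^ (k + 1) * h (k + 1) x =
        ρ p * ∑ k ∈ Finset.range n, ρ p ^ k * h k (8 * x - 1) +
        ρ p * ∑ k ∈ Finset.range n, ρ p ^ k * h k (8 * x - 6) := by
      rw [Finset.mul_sum, Finset.mul_sum, ← Finset.sum_add_distrib]
      refine Finset.sum_congr rfl fun k _ => ?_
      rw [h_succ, pow_succ]
      ring
    rw [e, pow_zero, one_mul]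
    have z : ∀ a : ℝ, (8 * x - a < 0 ∨ 1 ≤ 8 * x - a) →
        ∑ k ∈ Finset.range n, ρ p ^ k * h k (8 * x - a) = 0 := by
      intro a ha
      refine Finset.sum_eq_zero fun k _ => ?_
      have : h k (8 * x - a) = 0 := by
        by_contra h1
        have h2 := h_supp k _ h1
        rcases ha with h3 | h3 <;> linarith [h2.1, h2.2]
      rw [this, mul_zero]
    by_cases hx : x ∈ Ico (3 / 8 : ℝ) (5 / 8)
    · rw [z 1 (Or.inr (by linarith [hx.1])), z 6 (Or.inl (by linarith [hx.2])), mul_zero, add_zero,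
        zero_add]
      exact h_le_one 0 x
    · have h0 : h 0 x = 0 := indicator_of_notMem hx _
      rw [h0, add_zero]
      by_cases hx2 : x < 1 / 2
      · rw [z 6 (Or.inl (by linarith)), mul_zero, add_zero]
        calc _ ≤ (1 : ℝ≥0∞) * 1 := mul_le_mul' (ρ_le_one p hp) (ih _)
          _ = 1 := mul_one _
      · push Not at hx2
        rw [z 1 (Or.inr (by linarith)), mul_zero, zero_add]
        calc _ ≤ (1 : ℝ≥0∞) * 1 := mul_le_mul' (ρ_le_one p hp) (ih _)
          _ = 1 := mul_one _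

lemma U_le_one (p : ℝ) (hp : 1 < p) (x : ℝ) : U p x ≤ 1 := by
  unfold U
  rw [ENNReal.tsum_eq_iSup_nat]
  exact iSup_le fun n => partial_le p hp n x

lemma lintegral_U (p : ℝ) (hp : 1 < p) : ∫⁻ x, U p x ≤ 1 := by
  calc ∫⁻ x, U p x ≤ ∫⁻ x, (Ico (0 : ℝ) 1).indicator 1 x := by
        apply lintegral_mono
        intro x
        by_cases hx : U p x = 0
        · show U p x ≤ _
          rw [hx]; exact bot_le
        · rw [indicator_of_mem (show x ∈ Ico (0 : ℝ) 1 from U_supp p x hx)]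
          exact U_le_one p hp x
    _ = 1 := by
      rw [lintegral_indicator_one measurableSet_Ico, Real.volume_Ico]
      norm_num

/-- the tailed average of `U` -/
noncomputable def Φ (p c l : ℝ) : ℝ≥0∞ := ∫⁻ x, U p x / ENNReal.ofReal (l ^ p + |x - c| ^ p)

lemma meas_den (p c l : ℝ) : Measurable fun x : ℝ => ENNReal.ofReal (l ^ p + |x - c| ^ p) := by
  fun_prop

lemma Φ_le_of (p : ℝ) (hp : 1 < p) (c l d : ℝ) (hd : 0 < d)
    (H : ∀ x, 0 ≤ x → x < 1 → d ≤ l ^ p + |x - c| ^ p) :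
    Φ p c l ≤ ENNReal.ofReal d⁻¹ := by
  unfold Φ
  calc ∫⁻ x, U p x / ENNReal.ofReal (l ^ p + |x - c| ^ p) ≤ ∫⁻ x, ENNReal.ofReal d⁻¹ * U p x := by
        apply lintegral_mono
        intro x
        by_cases hx : U p x = 0
        · simp [hx]
        · have h1 := U_supp p x hx
          have h2 := H x h1.1 h1.2
          show U p x / ENNReal.ofReal (l ^ p + |x - c| ^ p) ≤ ENNReal.ofReal d⁻¹ * U p x
          rw [ENNReal.ofReal_inv_of_pos hd, mul_comm, ← div_eq_mul_inv]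
          exact ENNReal.div_le_div_left (ENNReal.ofReal_le_ofReal h2) _
    _ = ENNReal.ofReal d⁻¹ * ∫⁻ x, U p x := lintegral_const_mul _ (measurable_U p)
    _ ≤ ENNReal.ofReal d⁻¹ * 1 := by gcongr; exact lintegral_U p hp
    _ = _ := mul_one _

/-- the doubling factor -/
noncomputable def τ (p : ℝ) : ℝ≥0∞ := ENNReal.ofReal ((2 : ℝ) ^ (p - 1))

lemma factor (p : ℝ) : ρ p * ENNReal.ofReal ((8 : ℝ) ^ p) * ENNReal.ofReal (8 : ℝ)⁻¹ = τ p := by
  unfold ρ τ
  rw [← ENNReal.ofReal_mul (by positivity), ← ENNReal.ofReal_mul (by positivity)]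
  congr 1
  have h4 : (4 : ℝ) = 2 ^ (2 : ℝ) := by norm_num
  have h8 : (8 : ℝ) = 2 ^ (3 : ℝ) := by norm_num
  have h8' : (8 : ℝ)⁻¹ = 2 ^ (-3 : ℝ) := by
    rw [Real.rpow_neg (by norm_num)]; norm_num
  rw [h8', h4, h8, ← Real.rpow_mul (by norm_num), ← Real.rpow_mul (by norm_num),
    ← Real.rpow_add (by norm_num), ← Real.rpow_add (by norm_num)]
  congr 1
  ring

/-- self-similarity of `Φ` -/
lemma Φ_eq (p c l : ℝ) (hl : 0 ≤ l) :
    Φ p c l = (∫⁻ x, h 0 x / ENNReal.ofReal (l ^ p + |x - c| ^ p)) +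
    (τ p * Φ p (8 * c - 1) (8 * l) + τ p * Φ p (8 * c - 6) (8 * l)) := by
  have h8p : (0 : ℝ) < (8 : ℝ) ^ p := by positivity
  have h8e : ENNReal.ofReal ((8 : ℝ) ^ p) ≠ 0 := by
    rw [Ne, ENNReal.ofReal_eq_zero, not_le]; exact h8p
  have key : ∀ a : ℝ, ∫⁻ x, ρ p * U p (8 * x - a) / ENNReal.ofReal (l ^ p + |x - c| ^ p) =
      τ p * Φ p (8 * c - a) (8 * l) := by
    intro a
    have h1 : ∀ x : ℝ, ρ p * U p (8 * x - a) / ENNReal.ofReal (l ^ p + |x - c| ^ p) =
        (ρ p * ENNReal.ofReal ((8 : ℝ) ^ p)) *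
        (U p (8 * x - a) / ENNReal.ofReal ((8 * l) ^ p + |(8 * x - a) - (8 * c - a)| ^ p)) := by
      intro x
      have e0 : |(8 * x - a) - (8 * c - a)| = 8 * |x - c| := by
        rw [show (8 * x - a) - (8 * c - a) = 8 * (x - c) by ring, abs_mul]
        norm_num
      have e1 : (8 * l) ^ p + |(8 * x - a) - (8 * c - a)| ^ p = 8 ^ p * (l ^ p + |x - c| ^ p) := by
        rw [e0, Real.mul_rpow (by norm_num) hl, Real.mul_rpow (by norm_num) (abs_nonneg _)]
        ring
      rw [e1, ENNReal.ofReal_mul h8p.le, div_eq_mul_inv, div_eq_mul_inv,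
        ENNReal.mul_inv (Or.inl h8e) (Or.inl ENNReal.ofReal_ne_top)]
      have e3 : ENNReal.ofReal ((8 : ℝ) ^ p) * (ENNReal.ofReal ((8 : ℝ) ^ p))⁻¹ = 1 :=
        ENNReal.mul_inv_cancel h8e ENNReal.ofReal_ne_top
      calc ρ p * U p (8 * x - a) * (ENNReal.ofReal (l ^ p + |x - c| ^ p))⁻¹
          = ρ p * U p (8 * x - a) * (ENNReal.ofReal (l ^ p + |x - c| ^ p))⁻¹ * 1 := (mul_one _).symm
        _ = ρ p * U p (8 * x - a) * (ENNReal.ofReal (l ^ p + |x - c| ^ p))⁻¹ *
            (ENNReal.ofReal ((8 : ℝ) ^ p) * (ENNReal.ofReal ((8 : ℝ) ^ p))⁻¹) := by rw [e3]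
        _ = _ := by ring
    simp_rw [h1]
    have hm : Measurable fun y : ℝ =>
        U p y / ENNReal.ofReal ((8 * l) ^ p + |y - (8 * c - a)| ^ p) :=
      (measurable_U p).div (meas_den _ _ _)
    rw [lintegral_const_mul _ (meas_aff hm 8 a),
      lintegral_affine _ hm 8 a (by norm_num), ← mul_assoc, factor]
    rfl
  have h2 : ∀ x : ℝ, U p x / ENNReal.ofReal (l ^ p + |x - c| ^ p) =
      h 0 x / ENNReal.ofReal (l ^ p + |x - c| ^ p) +
      (ρ p * U p (8 * x - 1) / ENNReal.ofReal (l ^ p + |x - c| ^ p) +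
       ρ p * U p (8 * x - 6) / ENNReal.ofReal (l ^ p + |x - c| ^ p)) := by
    intro x
    rw [U_eq p x, ENNReal.add_div, ENNReal.add_div]
  have m1 : Measurable fun x : ℝ => h 0 x / ENNReal.ofReal (l ^ p + |x - c| ^ p) :=
    (measurable_h 0).div (meas_den _ _ _)
  have m2 : Measurable fun x : ℝ =>
      ρ p * U p (8 * x - 1) / ENNReal.ofReal (l ^ p + |x - c| ^ p) :=
    ((meas_aff (measurable_U p) 8 1).const_mul _).div (meas_den _ _ _)
  rw [← key 1, ← key 6, ← lintegral_add_left m2, ← lintegral_add_left m1]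
  unfold Φ
  exact lintegral_congr h2

/-- the constant of the kernel -/
noncomputable def Cp (p : ℝ) : ℝ≥0∞ := ∫⁻ x : ℝ, ENNReal.ofReal ((1 + |x| ^ p)⁻¹)

lemma Cp_lt_top (p : ℝ) (hp : 1 < p) : Cp p < ∞ := by
  have h1 : ∫⁻ x : ℝ, ENNReal.ofReal ((1 + ‖x‖) ^ (-p)) < ∞ :=
    finite_integral_one_add_norm (by simpa using hp)
  have h2 : Cp p ≤ ∫⁻ x : ℝ, ENNReal.ofReal ((2 : ℝ) ^ p) * ENNReal.ofReal ((1 + ‖x‖) ^ (-p)) := by
    unfold Cp
    apply lintegral_mono
    intro x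
    show ENNReal.ofReal ((1 + |x| ^ p)⁻¹) ≤
      ENNReal.ofReal ((2 : ℝ) ^ p) * ENNReal.ofReal ((1 + ‖x‖) ^ (-p))
    rw [← ENNReal.ofReal_mul (by positivity)]
    apply ENNReal.ofReal_le_ofReal
    have hx : 0 ≤ |x| := abs_nonneg x
    have hxp : 0 ≤ |x| ^ p := by positivity
    have h3 : (1 + |x|) ^ p ≤ 2 ^ p * (1 + |x| ^ p) := by
      rcases le_total (|x|) 1 with h4 | h4
      · calc (1 + |x|) ^ p ≤ 2 ^ p := Real.rpow_le_rpow (by positivity) (by linarith) (by linarith)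
          _ ≤ 2 ^ p * (1 + |x| ^ p) := by
            have : (0 : ℝ) < 2 ^ p := by positivity
            nlinarith
      · calc (1 + |x|) ^ p ≤ (2 * |x|) ^ p :=
              Real.rpow_le_rpow (by positivity) (by linarith) (by linarith)
          _ = 2 ^ p * |x| ^ p := Real.mul_rpow (by norm_num) hx
          _ ≤ 2 ^ p * (1 + |x| ^ p) := by
            have : (0 : ℝ) < 2 ^ p := by positivity
            nlinarith
    rw [Real.norm_eq_abs, Real.rpow_neg (by positivity), ← div_eq_mul_inv, le_div_iff₀ (by positivity),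
      inv_mul_le_iff₀ (by positivity)]
    linarith
  refine h2.trans_lt ?_
  rw [lintegral_const_mul' _ _ ENNReal.ofReal_ne_top]
  exact ENNReal.mul_lt_top ENNReal.ofReal_lt_top h1

lemma Φ_mul_le (p : ℝ) (hp : 1 < p) (c l : ℝ) (hl : 0 < l) :
    Φ p c l * ENNReal.ofReal l ^ (p - 1) ≤ Cp p := by
  have hm : Measurable fun y : ℝ => ENNReal.ofReal ((1 + |y| ^ p)⁻¹) := by fun_prop
  have h1 : Φ p c l ≤ ∫⁻ x : ℝ, ENNReal.ofReal ((l ^ p)⁻¹) *
      ENNReal.ofReal ((1 + |l⁻¹ * x - c / l| ^ p)⁻¹) := by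
    unfold Φ
    apply lintegral_mono
    intro x
    have e0 : |l⁻¹ * x - c / l| = l⁻¹ * |x - c| := by
      rw [show l⁻¹ * x - c / l = l⁻¹ * (x - c) by ring, abs_mul, abs_of_pos (inv_pos.2 hl)]
    have e : (l ^ p)⁻¹ * (1 + |l⁻¹ * x - c / l| ^ p)⁻¹ = (l ^ p + |x - c| ^ p)⁻¹ := by
      have hlp : 0 < l ^ p := by positivity
      rw [← mul_inv, e0, Real.mul_rpow (by positivity) (abs_nonneg _), Real.inv_rpow hl.le]
      congr 1
      field_simp
    show U p x / ENNReal.ofReal (l ^ p + |x - c| ^ p) ≤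
      ENNReal.ofReal ((l ^ p)⁻¹) * ENNReal.ofReal ((1 + |l⁻¹ * x - c / l| ^ p)⁻¹)
    rw [← ENNReal.ofReal_mul (by positivity), e, ENNReal.ofReal_inv_of_pos (by positivity),
      div_eq_mul_inv]
    calc U p x * (ENNReal.ofReal (l ^ p + |x - c| ^ p))⁻¹ ≤
        1 * (ENNReal.ofReal (l ^ p + |x - c| ^ p))⁻¹ := by gcongr; exact U_le_one p hp x
      _ = _ := one_mul _
  rw [lintegral_const_mul _ (meas_aff hm l⁻¹ (c / l)),
    lintegral_affine _ hm l⁻¹ (c / l) (inv_pos.2 hl), inv_inv] at h1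
  have h2 : ENNReal.ofReal ((l ^ p)⁻¹) * (ENNReal.ofReal l * ENNReal.ofReal l ^ (p - 1)) = 1 := by
    rw [ENNReal.ofReal_rpow_of_pos hl, ← ENNReal.ofReal_mul hl.le,
      ← ENNReal.ofReal_mul (by positivity)]
    have : (l ^ p)⁻¹ * (l * l ^ (p - 1)) = 1 := by
      have e1 : l * l ^ (p - 1) = l ^ p := by
        rw [Real.rpow_sub_one hl.ne']
        field_simp
      rw [e1]
      exact inv_mul_cancel₀ (by positivity)
    rw [this, ENNReal.ofReal_one]
  calc Φ p c l * ENNReal.ofReal l ^ (p - 1) ≤ (ENNReal.ofReal ((l ^ p)⁻¹) * (ENNReal.ofReal l *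
        ∫⁻ x : ℝ, ENNReal.ofReal ((1 + |x| ^ p)⁻¹))) * ENNReal.ofReal l ^ (p - 1) := by gcongr
    _ = (ENNReal.ofReal ((l ^ p)⁻¹) * (ENNReal.ofReal l * ENNReal.ofReal l ^ (p - 1))) * Cp p := by
        unfold Cp; ring
    _ = Cp p := by rw [h2, one_mul]

/-- bound of the middle part -/
noncomputable def M0 (p : ℝ) : ℝ := 16 ^ p

lemma mid_le (p : ℝ) (c l : ℝ) (hl : 0 ≤ l)
    (H : ∀ x : ℝ, 3 / 8 ≤ x → x < 5 / 8 → 1 / 16 ≤ |x - c|) (hp : 1 < p) :
    ∫⁻ x, h 0 x / ENNReal.ofReal (l ^ p + |x - c| ^ p) ≤ ENNReal.ofReal (M0 p) := by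
  have hM : 0 < M0 p := by unfold M0; positivity
  calc ∫⁻ x, h 0 x / ENNReal.ofReal (l ^ p + |x - c| ^ p) ≤
        ∫⁻ x, ENNReal.ofReal (M0 p) * h 0 x := by
        apply lintegral_mono
        intro x
        show h 0 x / ENNReal.ofReal (l ^ p + |x - c| ^ p) ≤ ENNReal.ofReal (M0 p) * h 0 x
        by_cases hx : x ∈ Ico (3 / 8 : ℝ) (5 / 8)
        · have h2 := H x hx.1 hx.2
          have h3 : (M0 p)⁻¹ ≤ l ^ p + |x - c| ^ p := by
            have a1 : (M0 p)⁻¹ = (1 / 16) ^ p := by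
              unfold M0
              rw [one_div, Real.inv_rpow (by norm_num)]
            have a2 : ((1 : ℝ) / 16) ^ p ≤ |x - c| ^ p :=
              Real.rpow_le_rpow (by norm_num) h2 (by linarith)
            have a3 : 0 ≤ l ^ p := Real.rpow_nonneg hl p
            linarith
          have h4 : ENNReal.ofReal (M0 p) = (ENNReal.ofReal (M0 p)⁻¹)⁻¹ := by
            rw [← ENNReal.ofReal_inv_of_pos (by positivity), inv_inv]
          rw [h4, mul_comm, ← div_eq_mul_inv]
          exact ENNReal.div_le_div_left (ENNReal.ofReal_le_ofReal h3) _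
        · have h0 : h 0 x = 0 := indicator_of_notMem hx _
          simp [h0]
    _ = ENNReal.ofReal (M0 p) * 4⁻¹ ^ (0 + 1) := by
        rw [lintegral_const_mul _ (measurable_h 0), lintegral_h]
    _ ≤ ENNReal.ofReal (M0 p) * 1 := by
        gcongr
        rw [zero_add, pow_one]
        exact ENNReal.inv_le_one.2 (by norm_num)
    _ = _ := mul_one _

/-- the additive constant -/
noncomputable def K0 (p : ℝ) : ℝ := (M0 p + 2 ^ (p - 1)) / (2 ^ (p - 1) - 1)

lemma K0_eq (p : ℝ) (hp : 1 < p) :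
    ENNReal.ofReal (M0 p) + τ p + ENNReal.ofReal (K0 p) ≤ τ p * ENNReal.ofReal (K0 p) := by
  have h1 : (1 : ℝ) < 2 ^ (p - 1) := Real.one_lt_rpow (by norm_num) (by linarith)
  have hM : 0 < M0 p := by unfold M0; positivity
  have hK : 0 ≤ K0 p := by
    unfold K0
    apply div_nonneg <;> linarith
  unfold τ
  rw [← ENNReal.ofReal_mul (by positivity), ← ENNReal.ofReal_add hM.le (by positivity),
    ← ENNReal.ofReal_add (by positivity) hK]
  apply ENNReal.ofReal_le_ofReal
  have : K0 p * (2 ^ (p - 1) - 1) = M0 p + 2 ^ (p - 1) := by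
    unfold K0
    exact div_mul_cancel₀ _ (by linarith)
  linarith

lemma step_arith (p : ℝ) (hp : 1 < p) (P M A B S' D : ℝ≥0∞) (hM : M ≤ ENNReal.ofReal (M0 p))
    (hB : B ≤ 1) (hP : P = M + (τ p * A + τ p * B))
    (hA : (A + ENNReal.ofReal (K0 p)) * S' ^ (p - 1) ≤ D) :
    (P + ENNReal.ofReal (K0 p)) * (2⁻¹ * S') ^ (p - 1) ≤ D := by
  have h1 : P + ENNReal.ofReal (K0 p) ≤ τ p * (A + ENNReal.ofReal (K0 p)) := by
    calc P + ENNReal.ofReal (K0 p) ≤ (ENNReal.ofReal (M0 p) + (τ p * A + τ p * 1)) +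
          ENNReal.ofReal (K0 p) := by rw [hP]; gcongr
      _ = τ p * A + (ENNReal.ofReal (M0 p) + τ p + ENNReal.ofReal (K0 p)) := by ring
      _ ≤ τ p * A + τ p * ENNReal.ofReal (K0 p) := by gcongr; exact K0_eq p hp
      _ = _ := by ring
  have h2 : τ p * (2⁻¹ : ℝ≥0∞) ^ (p - 1) = 1 := by
    unfold τ
    have a1 : (2⁻¹ : ℝ≥0∞) = ENNReal.ofReal (2 : ℝ)⁻¹ := by
      rw [ENNReal.ofReal_inv_of_pos (by norm_num)]; norm_num
    rw [a1, ENNReal.ofReal_rpow_of_pos (by norm_num), ← ENNReal.ofReal_mul (by positivity),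
      Real.inv_rpow (by norm_num), mul_inv_cancel₀ (by positivity), ENNReal.ofReal_one]
  calc (P + ENNReal.ofReal (K0 p)) * (2⁻¹ * S') ^ (p - 1)
      ≤ (τ p * (A + ENNReal.ofReal (K0 p))) * (2⁻¹ * S') ^ (p - 1) := by gcongr
    _ = (τ p * (2⁻¹ : ℝ≥0∞) ^ (p - 1)) * ((A + ENNReal.ofReal (K0 p)) * S' ^ (p - 1)) := by
        rw [ENNReal.mul_rpow_of_nonneg _ _ (by linarith)]
        ring
    _ = (A + ENNReal.ofReal (K0 p)) * S' ^ (p - 1) := by rw [h2, one_mul]
    _ ≤ D := hA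

/-- the constant -/
noncomputable def D (p : ℝ) : ℝ≥0∞ := Cp p + ENNReal.ofReal (K0 p) + ENNReal.ofReal (8 ^ p)

lemma D_lt_top (p : ℝ) (hp : 1 < p) : D p < ∞ := by
  unfold D
  exact ENNReal.add_lt_top.2 ⟨ENNReal.add_lt_top.2 ⟨Cp_lt_top p hp, ENNReal.ofReal_lt_top⟩,
    ENNReal.ofReal_lt_top⟩

/-- the tailed condition uniformly in the generation -/
lemma main_ineq (p : ℝ) (hp : 1 < p) (n : ℕ) (a b : ℝ) (hab : a < b) :
    (Φ p ((a + b) / 2) (b - a) + ENNReal.ofReal (K0 p)) * S n a b ^ (p - 1) ≤ D p := by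
  have hq : 0 ≤ p - 1 := by linarith
  induction n generalizing a b with
  | zero =>
    have h1 := Φ_mul_le p hp ((a + b) / 2) (b - a) (sub_pos.2 hab)
    calc (Φ p ((a + b) / 2) (b - a) + ENNReal.ofReal (K0 p)) * S 0 a b ^ (p - 1)
        = Φ p ((a + b) / 2) (b - a) * S 0 a b ^ (p - 1) +
          ENNReal.ofReal (K0 p) * S 0 a b ^ (p - 1) := add_mul _ _ _
      _ ≤ Φ p ((a + b) / 2) (b - a) * ENNReal.ofReal (b - a) ^ (p - 1) +
          ENNReal.ofReal (K0 p) * 1 ^ (p - 1) := by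
          gcongr
          · exact S_zero_le a b
          · exact S_le_one 0 a b
      _ ≤ Cp p + ENNReal.ofReal (K0 p) := by
          rw [ENNReal.one_rpow, mul_one]
          gcongr
      _ ≤ D p := by unfold D; exact le_self_add
  | succ n ih =>
    have hl0 : 0 ≤ b - a := by linarith
    by_cases hl : 1 / 8 ≤ b - a
    · have h1 : Φ p ((a + b) / 2) (b - a) ≤ ENNReal.ofReal ((1 / 8 : ℝ) ^ p)⁻¹ := by
        apply Φ_le_of p hp _ _ _ (by positivity)
        intro x _ _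
        have a1 : ((1 : ℝ) / 8) ^ p ≤ (b - a) ^ p :=
          Real.rpow_le_rpow (by norm_num) hl (by linarith)
        have a2 : 0 ≤ |x - (a + b) / 2| ^ p := by positivity
        linarith
      have h2 : ((1 / 8 : ℝ) ^ p)⁻¹ = 8 ^ p := by
        rw [one_div, Real.inv_rpow (by norm_num), inv_inv]
      rw [h2] at h1
      calc (Φ p ((a + b) / 2) (b - a) + ENNReal.ofReal (K0 p)) * S (n + 1) a b ^ (p - 1)
          ≤ (ENNReal.ofReal (8 ^ p) + ENNReal.ofReal (K0 p)) * 1 ^ (p - 1) := by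
            gcongr
            exact S_le_one _ _ _
        _ ≤ D p := by
            rw [ENNReal.one_rpow, mul_one]
            unfold D
            rw [add_comm (Cp p), add_assoc, add_comm (ENNReal.ofReal (8 ^ p))]
            gcongr
            exact le_add_self
    · push Not at hl
      have hc1 : ((8 * a - 1) + (8 * b - 1)) / 2 = 8 * ((a + b) / 2) - 1 := by ring
      have hl1 : (8 * b - 1) - (8 * a - 1) = 8 * (b - a) := by ring
      have hc2 : ((8 * a - 6) + (8 * b - 6)) / 2 = 8 * ((a + b) / 2) - 6 := by ring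
      have hl2 : (8 * b - 6) - (8 * a - 6) = 8 * (b - a) := by ring
      have i1 := ih (8 * a - 1) (8 * b - 1) (by linarith)
      have i2 := ih (8 * a - 6) (8 * b - 6) (by linarith)
      rw [hc1, hl1] at i1
      rw [hc2, hl2] at i2
      have one_of : ∀ c : ℝ, (∀ x : ℝ, 0 ≤ x → x < 1 → 1 ≤ |x - c|) →
          Φ p c (8 * (b - a)) ≤ 1 := by
        intro c hc
        have := Φ_le_of p hp c (8 * (b - a)) 1 one_pos (fun x h1 h2 => by
          have h3 := hc x h1 h2
          have h4 : 1 ≤ |x - c| ^ p := Real.one_le_rpow h3 (by linarith)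
          have h5 : 0 ≤ (8 * (b - a)) ^ p := Real.rpow_nonneg (by linarith) p
          linarith)
        simpa using this
      by_cases c1 : a < 1 / 4 ∧ 1 / 8 ≤ b
      · have z2 : S n (8 * a - 6) (8 * b - 6) = 0 := S_zero _ _ _ (Or.inl (by linarith [c1.1]))
        rw [S_succ, z2, mul_zero, add_zero]
        refine step_arith p hp _ _ _ _ _ _ (mid_le p _ _ hl0 ?_ hp) (one_of _ ?_)
          (Φ_eq p _ _ hl0) i1
        · intro x hx1 hx2
          rw [le_abs]; left
          linarith [c1.1, c1.2]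
        · intro x hx1 hx2
          rw [le_abs]; left
          linarith [c1.1, c1.2]
      · by_cases c2 : a < 7 / 8 ∧ 3 / 4 ≤ b
        · have z1 : S n (8 * a - 1) (8 * b - 1) = 0 := S_zero _ _ _ (Or.inr (by linarith [c2.2]))
          rw [S_succ, z1, mul_zero, zero_add]
          have hP : Φ p ((a + b) / 2) (b - a) =
              (∫⁻ x, h 0 x / ENNReal.ofReal ((b - a) ^ p + |x - (a + b) / 2| ^ p)) +
              (τ p * Φ p (8 * ((a + b) / 2) - 6) (8 * (b - a)) +
                τ p * Φ p (8 * ((a + b) / 2) - 1) (8 * (b - a))) := by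
            rw [Φ_eq p ((a + b) / 2) (b - a) hl0,
              add_comm (τ p * Φ p (8 * ((a + b) / 2) - 1) (8 * (b - a)))]
          refine step_arith p hp _ _ _ _ _ _ (mid_le p _ _ hl0 ?_ hp) (one_of _ ?_) hP i2
          · intro x hx1 hx2
            rw [le_abs]; right
            linarith [c2.1, c2.2]
          · intro x hx1 hx2
            rw [le_abs]; right
            linarith [c2.1, c2.2]
        · have z1 : S n (8 * a - 1) (8 * b - 1) = 0 := by
            apply S_zero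
            by_contra hcon
            push Not at hcon
            exact c1 ⟨by linarith [hcon.2], by linarith [hcon.1]⟩
          have z2 : S n (8 * a - 6) (8 * b - 6) = 0 := by
            apply S_zero
            by_contra hcon
            push Not at hcon
            exact c2 ⟨by linarith [hcon.2], by linarith [hcon.1]⟩
          rw [S_succ, z1, z2, mul_zero, add_zero, ENNReal.zero_rpow_of_pos (by linarith), mul_zero]
          exact bot_le

end Pool.Agent.Y893.TWP
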