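import Pool.Agent.Y893.TW.Gen

/-!
# The two-weight counterexample for every exponent `p > 1`, conclusion
-/

set_option autoImplicit false

open MeasureTheory Set Filter Topology
open scoped ENNReal NNReal

namespace Pool.Agent.Y893.TWP

open Pool.Agent.Y893.TW (h s S h_succ s_succ measurable_h measurable_s h_supp s_supp lintegral_s
  lintegral_h h_le_one S_le_one S_succ S_zero S_zero_le meas_aff lintegral_affine avg tsum_half)

/-- the function -/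
noncomputable def F (N : ℕ) (x : ℝ) : ℝ≥0∞ :=
  ∑' j : ℕ, (2⁻¹ : ℝ≥0∞) ^ (j + 1) * s (2 ^ (N * j)) x

lemma measurable_F (N : ℕ) : Measurable (F N) :=
  Measurable.ennreal_tsum fun j => (measurable_s _).const_mul _

lemma lintegral_F (N : ℕ) : ∫⁻ x, F N x = 1 := by
  unfold F
  rw [lintegral_tsum fun j => ((measurable_s _).const_mul _).aemeasurable, ← tsum_half]
  refine tsum_congr fun j => ?_
  rw [lintegral_const_mul _ (measurable_s _), lintegral_s, mul_one]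

lemma F_ge (N j : ℕ) (x : ℝ) : (2⁻¹ : ℝ≥0∞) ^ (j + 1) * s (2 ^ (N * j)) x ≤ F N x :=
  ENNReal.le_tsum (f := fun j : ℕ => (2⁻¹ : ℝ≥0∞) ^ (j + 1) * s (2 ^ (N * j)) x) j

/-- the second weight -/
noncomputable def V (p : ℝ) (N : ℕ) (x : ℝ) : ℝ≥0∞ := (1 + F N x) ^ (-(p - 1))

lemma measurable_V (p : ℝ) (N : ℕ) : Measurable (V p N) :=
  (measurable_const.add (measurable_F N)).pow_const _

lemma V_rpow (p : ℝ) (hp : 1 < p) (N : ℕ) (x : ℝ) : V p N x ^ (-(1 / (p - 1))) = 1 + F N x := by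
  have hq : p - 1 ≠ 0 := by linarith
  unfold V
  rw [← ENNReal.rpow_mul]
  have : -(p - 1) * -(1 / (p - 1)) = 1 := by field_simp
  rw [this, ENNReal.rpow_one]

lemma V_le_one (p : ℝ) (hp : 1 < p) (N : ℕ) (x : ℝ) : V p N x ≤ 1 := by
  unfold V
  rw [ENNReal.rpow_neg]
  exact ENNReal.inv_le_one.2 (ENNReal.one_le_rpow le_self_add (by linarith))

lemma F_ae_lt_top (N : ℕ) : ∀ᵐ x, F N x < ∞ :=
  ae_lt_top (measurable_F N) (by rw [lintegral_F]; exact ENNReal.one_ne_top)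

lemma V_ae_pos (p : ℝ) (hp : 1 < p) (N : ℕ) : ∀ᵐ x, 0 < V p N x := by
  filter_upwards [F_ae_lt_top N] with x hx
  unfold V
  rw [ENNReal.rpow_neg, ENNReal.inv_pos]
  exact (ENNReal.rpow_lt_top_of_nonneg (by linarith)
    (ENNReal.add_lt_top.2 ⟨ENNReal.one_lt_top, hx⟩).ne).ne

lemma lintegral_sigma (N : ℕ) (a b : ℝ) : ∫⁻ x in Icc a b, (1 + F N x) =
    ENNReal.ofReal (b - a) + ∑' j : ℕ, (2⁻¹ : ℝ≥0∞) ^ (j + 1) * S (2 ^ (N * j)) a b := by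
  rw [lintegral_add_left measurable_const]
  congr 1
  · simp
  · unfold F S
    rw [lintegral_tsum fun j => ((measurable_s _).const_mul _).aemeasurable]
    refine tsum_congr fun j => ?_
    rw [lintegral_const_mul _ (measurable_s _)]

lemma root_le (p : ℝ) (hp : 1 < p) (P X D : ℝ≥0∞) (hX : P * X ^ (p - 1) ≤ D) :
    P ^ (1 / (p - 1)) * X ≤ D ^ (1 / (p - 1)) := by
  have hq : 0 < p - 1 := by linarith
  have h1 : (P * X ^ (p - 1)) ^ (1 / (p - 1)) ≤ D ^ (1 / (p - 1)) :=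
    ENNReal.rpow_le_rpow hX (by positivity)
  rw [ENNReal.mul_rpow_of_nonneg _ _ (by positivity), ← ENNReal.rpow_mul,
    mul_one_div_cancel hq.ne', ENNReal.rpow_one] at h1
  exact h1

lemma tailed (p : ℝ) (hp : 1 < p) (N : ℕ) (a b : ℝ) (hab : a < b) :
    Φ p ((a + b) / 2) (b - a) * (∫⁻ x in Icc a b, (1 + F N x)) ^ (p - 1) ≤
      (2 * D p ^ (1 / (p - 1))) ^ (p - 1) := by
  have hq : 0 < p - 1 := by linarith
  have h0 := root_le p hp _ _ _ ((Φ_mul_le p hp ((a + b) / 2) (b - a) (sub_pos.2 hab)).trans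
    (show Cp p ≤ D p by unfold D; rw [add_assoc]; exact le_self_add))
  have h1 : ∀ n, Φ p ((a + b) / 2) (b - a) ^ (1 / (p - 1)) * S n a b ≤ D p ^ (1 / (p - 1)) := by
    intro n
    apply root_le p hp
    refine le_trans ?_ (main_ineq p hp n a b hab)
    gcongr
    exact le_self_add
  have h2 : Φ p ((a + b) / 2) (b - a) ^ (1 / (p - 1)) * ∫⁻ x in Icc a b, (1 + F N x) ≤
      2 * D p ^ (1 / (p - 1)) := by
    rw [lintegral_sigma, mul_add, ← ENNReal.tsum_mul_left, two_mul]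
    refine add_le_add h0 ?_
    calc ∑' j : ℕ, Φ p ((a + b) / 2) (b - a) ^ (1 / (p - 1)) *
          ((2⁻¹ : ℝ≥0∞) ^ (j + 1) * S (2 ^ (N * j)) a b)
        ≤ ∑' j : ℕ, (2⁻¹ : ℝ≥0∞) ^ (j + 1) * D p ^ (1 / (p - 1)) := by
          refine ENNReal.tsum_le_tsum fun j => ?_
          calc Φ p ((a + b) / 2) (b - a) ^ (1 / (p - 1)) *
                ((2⁻¹ : ℝ≥0∞) ^ (j + 1) * S (2 ^ (N * j)) a b)
              = (2⁻¹ : ℝ≥0∞) ^ (j + 1) * (Φ p ((a + b) / 2) (b - a) ^ (1 / (p - 1)) *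
                S (2 ^ (N * j)) a b) := by ring
            _ ≤ _ := by gcongr; exact h1 _
      _ = D p ^ (1 / (p - 1)) := by rw [ENNReal.tsum_mul_right, tsum_half, one_mul]
  have h3 : (Φ p ((a + b) / 2) (b - a) ^ (1 / (p - 1)) * ∫⁻ x in Icc a b, (1 + F N x)) ^ (p - 1) ≤
      (2 * D p ^ (1 / (p - 1))) ^ (p - 1) := ENNReal.rpow_le_rpow h2 hq.le
  rw [ENNReal.mul_rpow_of_nonneg _ _ hq.le, ← ENNReal.rpow_mul, one_div_mul_cancel hq.ne',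
    ENNReal.rpow_one] at h3
  exact h3

lemma B_lt_top (p : ℝ) (hp : 1 < p) : (2 * D p ^ (1 / (p - 1))) ^ (p - 1) < ∞ := by
  have hq : 0 < p - 1 := by linarith
  apply ENNReal.rpow_lt_top_of_nonneg hq.le
  apply ENNReal.mul_ne_top (by norm_num)
  exact (ENNReal.rpow_lt_top_of_nonneg (by positivity) (D_lt_top p hp).ne).ne

/-- the test function -/
noncomputable def f (N : ℕ) (x : ℝ) : ℝ := (F N x).toReal

lemma measurable_f (N : ℕ) : Measurable (f N) := (measurable_F N).ennreal_toReal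

lemma enorm_f_le (N : ℕ) (x : ℝ) : ‖f N x‖ₑ ≤ F N x := by
  unfold f
  rw [Real.enorm_of_nonneg ENNReal.toReal_nonneg]
  exact ENNReal.ofReal_toReal_le

lemma enorm_f_ae (N : ℕ) : (fun x => ‖f N x‖ₑ) =ᵐ[volume] F N := by
  filter_upwards [F_ae_lt_top N] with x hx
  unfold f
  rw [Real.enorm_of_nonneg ENNReal.toReal_nonneg, ENNReal.ofReal_toReal hx.ne]

lemma rhs_le (p : ℝ) (hp : 1 < p) (N : ℕ) : ∫⁻ x, ‖f N x‖ₑ ^ p * V p N x ≤ 1 := by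
  have hq : 0 ≤ p - 1 := by linarith
  rw [← lintegral_F N]
  apply lintegral_mono
  intro x
  show ‖f N x‖ₑ ^ p * V p N x ≤ F N x
  have e : F N x ^ p = F N x * F N x ^ (p - 1) := by
    have h1 : p = 1 + (p - 1) := by ring
    calc F N x ^ p = F N x ^ (1 + (p - 1)) := by rw [← h1]
      _ = F N x ^ (1 : ℝ) * F N x ^ (p - 1) := ENNReal.rpow_add_of_nonneg _ _ zero_le_one hq
      _ = _ := by rw [ENNReal.rpow_one]
  calc ‖f N x‖ₑ ^ p * V p N x ≤ F N x ^ p * V p N x := by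
        gcongr
        exact enorm_f_le N x
    _ = F N x * (F N x ^ (p - 1) * ((1 + F N x) ^ (p - 1))⁻¹) := by
        rw [e]; unfold V; rw [ENNReal.rpow_neg]; ring
    _ ≤ F N x * ((1 + F N x) ^ (p - 1) * ((1 + F N x) ^ (p - 1))⁻¹) := by
        gcongr
        exact le_add_self
    _ ≤ F N x * 1 := by gcongr; exact ENNReal.mul_inv_le_one _
    _ = F N x := mul_one _

/-- the maximal function of `f` -/
noncomputable def Mf (N : ℕ) (x : ℝ) : ℝ≥0∞ := ⨆ a : ℝ, ⨆ b : ℝ, ⨆ (_ : a < x ∧ x < b),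
  ENNReal.ofReal (b - a)⁻¹ * ∫⁻ t in Set.Ioo a b, ‖f N t‖ₑ

lemma Mf_ge (N k j : ℕ) (hkj : k ≤ 2 ^ (N * j)) (x : ℝ) (hx : h k x ≠ 0) :
    (2⁻¹ : ℝ≥0∞) ^ (j + 1) * 4 ^ k ≤ Mf N x := by
  obtain ⟨a, b, hax, hxb, hint⟩ := avg k (2 ^ (N * j)) hkj x hx
  have hab : 0 < b - a := by linarith
  have h1 : (2⁻¹ : ℝ≥0∞) ^ (j + 1) * (4 ^ k * ENNReal.ofReal (b - a)) ≤
      ∫⁻ t in Ioo a b, ‖f N t‖ₑ := by
    calc (2⁻¹ : ℝ≥0∞) ^ (j + 1) * (4 ^ k * ENNReal.ofReal (b - a))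
        ≤ (2⁻¹ : ℝ≥0∞) ^ (j + 1) * ∫⁻ t in Ioo a b, s (2 ^ (N * j)) t := by gcongr
      _ = ∫⁻ t in Ioo a b, (2⁻¹ : ℝ≥0∞) ^ (j + 1) * s (2 ^ (N * j)) t :=
          (lintegral_const_mul _ (measurable_s _)).symm
      _ ≤ ∫⁻ t in Ioo a b, F N t := lintegral_mono fun t => F_ge N j t
      _ = ∫⁻ t in Ioo a b, ‖f N t‖ₑ := (lintegral_congr_ae (ae_restrict_of_ae (enorm_f_ae N))).symm
  have h2 : ENNReal.ofReal (b - a)⁻¹ * ∫⁻ t in Set.Ioo a b, ‖f N t‖ₑ ≤ Mf N x := by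
    unfold Mf
    exact le_iSup_of_le a (le_iSup_of_le b (le_iSup_of_le ⟨hax, hxb⟩ le_rfl))
  refine le_trans ?_ h2
  calc (2⁻¹ : ℝ≥0∞) ^ (j + 1) * 4 ^ k
      = ENNReal.ofReal (b - a)⁻¹ * ((2⁻¹ : ℝ≥0∞) ^ (j + 1) * (4 ^ k * ENNReal.ofReal (b - a))) := by
        rw [ENNReal.ofReal_inv_of_pos hab]
        have h3 : (ENNReal.ofReal (b - a))⁻¹ * ENNReal.ofReal (b - a) = 1 :=
          ENNReal.inv_mul_cancel (by simpa using hab) ENNReal.ofReal_ne_top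
        calc (2⁻¹ : ℝ≥0∞) ^ (j + 1) * 4 ^ k = (2⁻¹ : ℝ≥0∞) ^ (j + 1) * 4 ^ k * 1 := (mul_one _).symm
          _ = (2⁻¹ : ℝ≥0∞) ^ (j + 1) * 4 ^ k *
              ((ENNReal.ofReal (b - a))⁻¹ * ENNReal.ofReal (b - a)) := by rw [h3]
          _ = _ := by ring
    _ ≤ _ := by gcongr

/-- the contribution of one gap -/
noncomputable def t0 (p : ℝ) (j : ℕ) : ℝ := ((1 / 2 : ℝ) ^ (j + 1)) ^ p * (1 / 4)

lemma term_eq (p : ℝ) (hp : 1 < p) (j k : ℕ) :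
    ((2⁻¹ : ℝ≥0∞) ^ (j + 1) * 4 ^ k) ^ p * (ρ p ^ k * 4⁻¹ ^ (k + 1)) = ENNReal.ofReal (t0 p j) := by
  have a1 : (2⁻¹ : ℝ≥0∞) = ENNReal.ofReal (1 / 2 : ℝ) := by
    rw [one_div, ENNReal.ofReal_inv_of_pos (by norm_num)]; norm_num
  have a2 : (4 : ℝ≥0∞) = ENNReal.ofReal (4 : ℝ) := by norm_num
  have a3 : (ENNReal.ofReal (4 : ℝ))⁻¹ = ENNReal.ofReal (1 / 4 : ℝ) := by
    rw [one_div, ENNReal.ofReal_inv_of_pos (by norm_num)]
  unfold ρ
  rw [a1, a2, a3, ← ENNReal.ofReal_pow (by norm_num), ← ENNReal.ofReal_pow (by norm_num),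
    ← ENNReal.ofReal_pow (by positivity), ← ENNReal.ofReal_pow (by norm_num),
    ← ENNReal.ofReal_mul (by positivity), ENNReal.ofReal_rpow_of_nonneg (by positivity) (by linarith),
    ← ENNReal.ofReal_mul (by positivity), ← ENNReal.ofReal_mul (by positivity)]
  congr 1
  unfold t0
  have b1 : ((1 / 2 : ℝ) ^ (j + 1) * 4 ^ k) ^ p = ((1 / 2 : ℝ) ^ (j + 1)) ^ p * ((4 : ℝ) ^ p) ^ k := by
    rw [Real.mul_rpow (by positivity) (by positivity)]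
    congr 1
    rw [← Real.rpow_natCast, ← Real.rpow_natCast, ← Real.rpow_mul (by norm_num),
      ← Real.rpow_mul (by norm_num), mul_comm]
  have b2 : ((4 : ℝ) ^ p) ^ k * ((4 : ℝ) ^ (1 - p)) ^ k = 4 ^ k := by
    rw [← mul_pow, ← Real.rpow_add (by norm_num)]
    have : p + (1 - p) = 1 := by ring
    rw [this, Real.rpow_one]
  have b3 : (4 : ℝ) ^ k * (1 / 4) ^ (k + 1) = 1 / 4 := by
    rw [pow_succ, ← mul_assoc, ← mul_pow]; norm_num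
  calc ((1 / 2 : ℝ) ^ (j + 1) * 4 ^ k) ^ p * (((4 : ℝ) ^ (1 - p)) ^ k * (1 / 4) ^ (k + 1))
      = ((1 / 2 : ℝ) ^ (j + 1)) ^ p * ((((4 : ℝ) ^ p) ^ k * ((4 : ℝ) ^ (1 - p)) ^ k) *
        (1 / 4) ^ (k + 1)) := by rw [b1]; ring
    _ = _ := by rw [b2, b3]

lemma lhs_ge (p : ℝ) (hp : 1 < p) (N j : ℕ) :
    (2 ^ (N * j) : ℕ) * ENNReal.ofReal (t0 p j) ≤ ∫⁻ x, Mf N x ^ p * U p x := by
  have h1 : ∀ x, ∑ k ∈ Finset.range (2 ^ (N * j)),
      ((2⁻¹ : ℝ≥0∞) ^ (j + 1) * 4 ^ k) ^ p * (ρ p ^ k * h k x) ≤ Mf N x ^ p * U p x := by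
    intro x
    calc ∑ k ∈ Finset.range (2 ^ (N * j)),
          ((2⁻¹ : ℝ≥0∞) ^ (j + 1) * 4 ^ k) ^ p * (ρ p ^ k * h k x)
        ≤ ∑ k ∈ Finset.range (2 ^ (N * j)), Mf N x ^ p * (ρ p ^ k * h k x) := by
          refine Finset.sum_le_sum fun k hk => ?_
          by_cases hx : h k x = 0
          · rw [hx]; simp
          · have h2 := Mf_ge N k j (Finset.mem_range.1 hk).le x hx
            gcongr
      _ = Mf N x ^ p * ∑ k ∈ Finset.range (2 ^ (N * j)), ρ p ^ k * h k x := by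
          rw [Finset.mul_sum]
      _ ≤ Mf N x ^ p * U p x := by
          gcongr
          exact ENNReal.sum_le_tsum _
  calc ((2 ^ (N * j) : ℕ) : ℝ≥0∞) * ENNReal.ofReal (t0 p j)
      = ∑ k ∈ Finset.range (2 ^ (N * j)),
        ((2⁻¹ : ℝ≥0∞) ^ (j + 1) * 4 ^ k) ^ p * (ρ p ^ k * 4⁻¹ ^ (k + 1)) := by
        simp_rw [term_eq p hp j]
        rw [Finset.sum_const, Finset.card_range, nsmul_eq_mul]
    _ = ∫⁻ x, ∑ k ∈ Finset.range (2 ^ (N * j)),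
        ((2⁻¹ : ℝ≥0∞) ^ (j + 1) * 4 ^ k) ^ p * (ρ p ^ k * h k x) := by
        rw [lintegral_finset_sum _ fun k _ => ((measurable_h k).const_mul _).const_mul _]
        refine Finset.sum_congr rfl fun k _ => ?_
        rw [lintegral_const_mul _ ((measurable_h k).const_mul _),
          lintegral_const_mul _ (measurable_h k), lintegral_h]
    _ ≤ _ := lintegral_mono h1

lemma growth (p : ℝ) (hp : 1 < p) (N : ℕ) (hN : p + 1 ≤ N) (j : ℕ) :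
    (2 : ℝ) ^ j * ((1 / 2 : ℝ) ^ p * (1 / 4)) ≤ (2 ^ (N * j) : ℕ) * t0 p j := by
  unfold t0
  have e1 : ((1 / 2 : ℝ) ^ (j + 1)) ^ p = (1 / 2 : ℝ) ^ p * (((2 : ℝ) ^ p) ^ j)⁻¹ := by
    rw [pow_succ, Real.mul_rpow (by positivity) (by positivity), mul_comm]
    congr 1
    rw [one_div, ← inv_pow, ← Real.rpow_natCast, ← Real.rpow_natCast,
      ← Real.rpow_mul (by norm_num), mul_comm (j : ℝ) p, Real.rpow_mul (by norm_num),
      Real.inv_rpow (by norm_num)]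
  have e2 : (2 : ℝ) ^ j * ((2 : ℝ) ^ p) ^ j ≤ (2 ^ (N * j) : ℕ) := by
    push_cast
    rw [pow_mul, ← mul_pow]
    apply pow_le_pow_left₀ (by positivity)
    calc (2 : ℝ) * (2 : ℝ) ^ p = (2 : ℝ) ^ (1 + p) := by
          rw [Real.rpow_add (by norm_num), Real.rpow_one]
      _ ≤ (2 : ℝ) ^ (N : ℝ) := Real.rpow_le_rpow_of_exponent_le (by norm_num) (by linarith)
      _ = (2 : ℝ) ^ N := Real.rpow_natCast _ _
  have hpos : (0 : ℝ) < ((2 : ℝ) ^ p) ^ j := by positivity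
  have e3 : (2 : ℝ) ^ j ≤ (2 ^ (N * j) : ℕ) * (((2 : ℝ) ^ p) ^ j)⁻¹ := by
    rw [← div_eq_mul_inv, le_div_iff₀ hpos]
    exact e2
  rw [e1]
  calc (2 : ℝ) ^ j * ((1 / 2 : ℝ) ^ p * (1 / 4))
      ≤ ((2 ^ (N * j) : ℕ) * (((2 : ℝ) ^ p) ^ j)⁻¹) * ((1 / 2 : ℝ) ^ p * (1 / 4)) := by gcongr
    _ = _ := by ring

lemma lhs_top (p : ℝ) (hp : 1 < p) (N : ℕ) (hN : p + 1 ≤ N) :
    ∫⁻ x, Mf N x ^ p * U p x = ∞ := by
  refine ENNReal.eq_top_of_forall_nnreal_le fun r => ?_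
  have hc : (0 : ℝ) < (1 / 2 : ℝ) ^ p * (1 / 4) := by positivity
  obtain ⟨j, hj⟩ := pow_unbounded_of_one_lt ((r : ℝ) / ((1 / 2 : ℝ) ^ p * (1 / 4)))
    (by norm_num : (1 : ℝ) < 2)
  refine le_trans ?_ (lhs_ge p hp N j)
  have h1 : (r : ℝ) ≤ (2 ^ (N * j) : ℕ) * t0 p j := by
    refine le_trans ?_ (growth p hp N hN j)
    rw [div_lt_iff₀ hc] at hj
    exact hj.le
  calc (r : ℝ≥0∞) = ENNReal.ofReal (r : ℝ) := (ENNReal.ofReal_coe_nnreal).symm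
    _ ≤ ENNReal.ofReal ((2 ^ (N * j) : ℕ) * t0 p j) := ENNReal.ofReal_le_ofReal h1
    _ = _ := by rw [ENNReal.ofReal_mul (by positivity), ENNReal.ofReal_natCast]

end Pool.Agent.Y893.TWP
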