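import Pool.Agent.Y893.TW.Core

/-!
# The two-weight counterexample
-/

set_option autoImplicit false

open MeasureTheory Set Filter Topology
open scoped ENNReal NNReal

namespace Pool.Agent.Y893.TW

lemma lintegral_cauchy : ∫⁻ x : ℝ, ENNReal.ofReal ((1 + x ^ 2)⁻¹) = ENNReal.ofReal Real.pi := by
  rw [← ofReal_integral_eq_lintegral_ofReal integrable_inv_one_add_sq
    (Filter.Eventually.of_forall fun x => by positivity)]
  rw [integral_univ_inv_one_add_sq]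

lemma Φ_mul_le (c l : ℝ) (hl : 0 < l) : Φ c l * ENNReal.ofReal l ≤ 4 := by
  have hm : Measurable fun y : ℝ => ENNReal.ofReal ((1 + y ^ 2)⁻¹) := by fun_prop
  have h1 : Φ c l ≤ ∫⁻ x : ℝ, ENNReal.ofReal ((l ^ 2)⁻¹) *
      ENNReal.ofReal ((1 + (l⁻¹ * x - c / l) ^ 2)⁻¹) := by
    unfold Φ
    apply lintegral_mono
    intro x
    have e : (l ^ 2)⁻¹ * (1 + (l⁻¹ * x - c / l) ^ 2)⁻¹ = (l ^ 2 + (x - c) ^ 2)⁻¹ := by
      rw [← mul_inv]
      congr 1
      field_simp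
    show U x / ENNReal.ofReal (l ^ 2 + (x - c) ^ 2) ≤
      ENNReal.ofReal ((l ^ 2)⁻¹) * ENNReal.ofReal ((1 + (l⁻¹ * x - c / l) ^ 2)⁻¹)
    rw [← ENNReal.ofReal_mul (by positivity), e, ENNReal.ofReal_inv_of_pos (by positivity),
      div_eq_mul_inv]
    calc U x * (ENNReal.ofReal (l ^ 2 + (x - c) ^ 2))⁻¹ ≤
        1 * (ENNReal.ofReal (l ^ 2 + (x - c) ^ 2))⁻¹ := by gcongr; exact U_le_one x
      _ = _ := one_mul _
  rw [lintegral_const_mul _ (meas_aff hm l⁻¹ (c / l)),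
    lintegral_affine _ hm l⁻¹ (c / l) (inv_pos.2 hl), lintegral_cauchy, inv_inv] at h1
  calc Φ c l * ENNReal.ofReal l ≤ (ENNReal.ofReal ((l ^ 2)⁻¹) * (ENNReal.ofReal l *
        ENNReal.ofReal Real.pi)) * ENNReal.ofReal l := by gcongr
    _ = ENNReal.ofReal ((l ^ 2)⁻¹ * (l * Real.pi) * l) := by
        rw [ENNReal.ofReal_mul (by positivity), ENNReal.ofReal_mul (by positivity),
          ENNReal.ofReal_mul (by positivity)]
    _ = ENNReal.ofReal Real.pi := by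
        congr 1
        field_simp
    _ ≤ ENNReal.ofReal 4 := ENNReal.ofReal_le_ofReal Real.pi_le_four
    _ = 4 := by norm_num

lemma S_zero_le (a b : ℝ) : S 0 a b ≤ ENNReal.ofReal (b - a) := by
  unfold S
  calc ∫⁻ x in Icc a b, s 0 x ≤ ∫⁻ x in Icc a b, 1 := by
        apply lintegral_mono
        intro x
        show (Ico (0 : ℝ) 1).indicator 1 x ≤ 1
        by_cases hx : x ∈ Ico (0 : ℝ) 1
        · rw [indicator_of_mem hx]; simp
        · rw [indicator_of_notMem hx]; simp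
    _ = ENNReal.ofReal (b - a) := by simp

lemma mid_le (c l : ℝ) (H : ∀ x : ℝ, 3 / 8 ≤ x → x < 5 / 8 → 1 / 256 ≤ l ^ 2 + (x - c) ^ 2) :
    ∫⁻ x, h 0 x / ENNReal.ofReal (l ^ 2 + (x - c) ^ 2) ≤ 64 := by
  calc ∫⁻ x, h 0 x / ENNReal.ofReal (l ^ 2 + (x - c) ^ 2) ≤ ∫⁻ x, 256 * h 0 x := by
        apply lintegral_mono
        intro x
        show h 0 x / ENNReal.ofReal (l ^ 2 + (x - c) ^ 2) ≤ 256 * h 0 x
        by_cases hx : x ∈ Ico (3 / 8 : ℝ) (5 / 8)
        · have h2 := H x hx.1 hx.2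
          have h3 : (256 : ℝ≥0∞) = (ENNReal.ofReal (1 / 256))⁻¹ := by
            rw [← ENNReal.ofReal_inv_of_pos (by norm_num)]
            norm_num
          rw [h3, mul_comm, ← div_eq_mul_inv]
          exact ENNReal.div_le_div_left (ENNReal.ofReal_le_ofReal h2) _
        · have h0 : h 0 x = 0 := indicator_of_notMem hx _
          simp [h0]
    _ = 256 * 4⁻¹ ^ (0 + 1) := by
        rw [lintegral_const_mul _ (measurable_h 0), lintegral_h]
    _ = 64 := by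
        have a1 : (4 : ℝ≥0∞) = ENNReal.ofReal 4 := by norm_num
        have a2 : (256 : ℝ≥0∞) = ENNReal.ofReal 256 := by norm_num
        have a3 : (64 : ℝ≥0∞) = ENNReal.ofReal 64 := by norm_num
        rw [zero_add, pow_one, a1, a2, a3, ← ENNReal.ofReal_inv_of_pos (by norm_num),
          ← ENNReal.ofReal_mul (by norm_num)]
        congr 1; norm_num
    _ ≤ 64 := le_rfl

lemma step_arith (P M A B S' : ℝ≥0∞) (hM : M ≤ 64) (hB : B ≤ 1) (hP : P = M + (2 * A + 2 * B))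
    (hA : (A + 100) * S' ≤ 200) : (P + 100) * (2⁻¹ * S') ≤ 200 := by
  have h1 : P + 100 ≤ 2 * (A + 100) := by
    calc P + 100 ≤ (64 + (2 * A + 2 * 1)) + 100 := by rw [hP]; gcongr
      _ = 2 * A + 166 := by ring
      _ ≤ 2 * A + 200 := by gcongr; norm_num
      _ = 2 * (A + 100) := by ring
  calc (P + 100) * (2⁻¹ * S') ≤ (2 * (A + 100)) * (2⁻¹ * S') := by gcongr
    _ = (2 * 2⁻¹) * ((A + 100) * S') := by ring
    _ = (A + 100) * S' := by
        rw [ENNReal.mul_inv_cancel (by norm_num) (by norm_num), one_mul]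
    _ ≤ 200 := hA

/-- the tailed condition uniformly in the generation -/
lemma main_ineq (n : ℕ) (a b : ℝ) (hab : a < b) :
    (Φ ((a + b) / 2) (b - a) + 100) * S n a b ≤ 200 := by
  induction n generalizing a b with
  | zero =>
    have h1 := Φ_mul_le ((a + b) / 2) (b - a) (sub_pos.2 hab)
    calc (Φ ((a + b) / 2) (b - a) + 100) * S 0 a b
        = Φ ((a + b) / 2) (b - a) * S 0 a b + 100 * S 0 a b := add_mul _ _ _
      _ ≤ Φ ((a + b) / 2) (b - a) * ENNReal.ofReal (b - a) + 100 * 1 := by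
          gcongr
          · exact S_zero_le a b
          · exact S_le_one 0 a b
      _ ≤ 4 + 100 * 1 := by gcongr
      _ ≤ 200 := by norm_num
  | succ n ih =>
    by_cases hl : 1 / 8 ≤ b - a
    · have h1 : Φ ((a + b) / 2) (b - a) ≤ ENNReal.ofReal (1 / 64 : ℝ)⁻¹ := by
        apply Φ_le_of _ _ _ (by norm_num)
        intro x _ _
        nlinarith [sq_nonneg (x - (a + b) / 2)]
      have h2 : ENNReal.ofReal (1 / 64 : ℝ)⁻¹ = 64 := by norm_num
      rw [h2] at h1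
      calc (Φ ((a + b) / 2) (b - a) + 100) * S (n + 1) a b ≤ (64 + 100) * 1 := by
            gcongr; exact S_le_one _ _ _
        _ ≤ 200 := by norm_num
    · push Not at hl
      have hc1 : ((8 * a - 1) + (8 * b - 1)) / 2 = 8 * ((a + b) / 2) - 1 := by ring
      have hl1 : (8 * b - 1) - (8 * a - 1) = 8 * (b - a) := by ring
      have hc2 : ((8 * a - 6) + (8 * b - 6)) / 2 = 8 * ((a + b) / 2) - 6 := by ring
      have hl2 : (8 * b - 6) - (8 * a - 6) = 8 * (b - a) := by ring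
      have i1 := ih (8 * a - 1) (8 * b - 1) (by linarith)
      have i2 := ih (8 * a - 6) (8 * b - 6) (by linarith)
      rw [hc1, hl1] at i1
      rw [hc2, hl2] at i2
      have one_of : ∀ c : ℝ, (∀ x : ℝ, 0 ≤ x → x < 1 → 1 ≤ (x - c) ^ 2) →
          Φ c (8 * (b - a)) ≤ 1 := by
        intro c hc
        have := Φ_le_of c (8 * (b - a)) 1 one_pos (fun x h1 h2 => by
          have := hc x h1 h2
          nlinarith [sq_nonneg (8 * (b - a))])
        simpa using this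
      by_cases c1 : a < 1 / 4 ∧ 1 / 8 ≤ b
      · have z2 : S n (8 * a - 6) (8 * b - 6) = 0 := S_zero _ _ _ (Or.inl (by linarith [c1.1]))
        rw [S_succ, z2, mul_zero, add_zero]
        refine step_arith _ _ _ _ _ (mid_le _ _ ?_) (one_of _ ?_) (Φ_eq _ _) i1
        · intro x hx1 hx2
          nlinarith [c1.1, c1.2, sq_nonneg (b - a)]
        · intro x hx1 hx2
          nlinarith [c1.1, c1.2]
      · by_cases c2 : a < 7 / 8 ∧ 3 / 4 ≤ b
        · have z1 : S n (8 * a - 1) (8 * b - 1) = 0 := S_zero _ _ _ (Or.inr (by linarith [c2.2]))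
          rw [S_succ, z1, mul_zero, zero_add]
          have hP : Φ ((a + b) / 2) (b - a) =
              (∫⁻ x, h 0 x / ENNReal.ofReal ((b - a) ^ 2 + (x - (a + b) / 2) ^ 2)) +
              (2 * Φ (8 * ((a + b) / 2) - 6) (8 * (b - a)) +
                2 * Φ (8 * ((a + b) / 2) - 1) (8 * (b - a))) := by
            rw [Φ_eq ((a + b) / 2) (b - a), add_comm (2 * Φ (8 * ((a + b) / 2) - 1) (8 * (b - a)))]
          refine step_arith _ _ _ _ _ (mid_le _ _ ?_) (one_of _ ?_) hP i2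
          · intro x hx1 hx2
            nlinarith [c2.1, c2.2, sq_nonneg (b - a)]
          · intro x hx1 hx2
            nlinarith [c2.1, c2.2]
        · have z1 : S n (8 * a - 1) (8 * b - 1) = 0 := by
            apply S_zero
            by_contra hcon
            push Not at hcon
            exact c1 ⟨by linarith [hcon.2], by linarith [hcon.1]⟩
          have z2 : S n (8 * a - 6) (8 * b - 6) = 0 := by
            apply S_zero
            by_contra hcon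
            push Not at hcon
            exact c2 ⟨by linarith [hcon.2], by linarith [hcon.1]⟩
          rw [S_succ, z1, z2]
          simp

lemma lintegral_Ioo_aff (f : ℝ → ℝ≥0∞) (hf : Measurable f) (a b t : ℝ) :
    ∫⁻ x in Ioo a b, f (8 * x - t) =
      ENNReal.ofReal (8 : ℝ)⁻¹ * ∫⁻ y in Ioo (8 * a - t) (8 * b - t), f y := by
  rw [← lintegral_indicator measurableSet_Ioo, ← lintegral_indicator measurableSet_Ioo]
  have e : ∀ x : ℝ, (Ioo a b).indicator (fun x => f (8 * x - t)) x =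
      (Ioo (8 * a - t) (8 * b - t)).indicator f (8 * x - t) := by
    intro x
    by_cases hx : x ∈ Ioo a b
    · have hx' : 8 * x - t ∈ Ioo (8 * a - t) (8 * b - t) := by
        constructor <;> linarith [hx.1, hx.2]
      rw [indicator_of_mem hx, indicator_of_mem hx']
    · have hx' : 8 * x - t ∉ Ioo (8 * a - t) (8 * b - t) := by
        intro h1; exact hx ⟨by linarith [h1.1], by linarith [h1.2]⟩
      rw [indicator_of_notMem hx, indicator_of_notMem hx']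
  simp_rw [e]
  rw [lintegral_affine _ (hf.indicator measurableSet_Ioo) 8 t (by norm_num)]

lemma lintegral_s_Ioo (n : ℕ) : ∫⁻ x in Ioo (0 : ℝ) 1, s n x = 1 := by
  rw [setLIntegral_congr Ioo_ae_eq_Ico, ← lintegral_indicator measurableSet_Ico, ← lintegral_s n]
  congr 1
  funext x
  by_cases hx : x ∈ Ico (0 : ℝ) 1
  · rw [indicator_of_mem hx]
  · rw [indicator_of_notMem hx]
    by_contra h1
    exact hx (s_supp n x (Ne.symm h1))

/-- on the support of `h k` there is an interval with average at least `4 ^ k` -/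
lemma avg (k n : ℕ) (hkn : k ≤ n) (x : ℝ) (hx : h k x ≠ 0) :
    ∃ a b : ℝ, a < x ∧ x < b ∧ 4 ^ k * ENNReal.ofReal (b - a) ≤ ∫⁻ t in Ioo a b, s n t := by
  induction k generalizing n x with
  | zero =>
    refine ⟨0, 1, ?_, ?_, ?_⟩
    · have h1 : x ∈ Ico (3 / 8 : ℝ) (5 / 8) := by
        by_contra h1
        exact hx (indicator_of_notMem h1 _)
      linarith [h1.1]
    · exact (h_supp 0 x hx).2
    · rw [lintegral_s_Ioo]
      norm_num
  | succ k ih =>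
    obtain ⟨m, rfl⟩ : ∃ m, n = m + 1 := ⟨n - 1, by omega⟩
    have hkm : k ≤ m := by omega
    have key : ∀ t : ℝ, (∀ y, 4 * s m (8 * y - t) ≤ s (m + 1) y) → h k (8 * x - t) ≠ 0 →
        ∃ a b : ℝ, a < x ∧ x < b ∧
          4 ^ (k + 1) * ENNReal.ofReal (b - a) ≤ ∫⁻ t in Ioo a b, s (m + 1) t := by
      intro t ht hne
      obtain ⟨a', b', h1, h2, h3⟩ := ih m hkm (8 * x - t) hne
      refine ⟨(a' + t) / 8, (b' + t) / 8, by linarith, by linarith, ?_⟩
      have h4 : ∫⁻ y in Ioo ((a' + t) / 8) ((b' + t) / 8), 4 * s m (8 * y - t) =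
          2⁻¹ * ∫⁻ y in Ioo a' b', s m y := by
        rw [lintegral_const_mul _ (meas_aff (measurable_s m) 8 t),
          lintegral_Ioo_aff _ (measurable_s m), ← mul_assoc, four_eight]
        have e1 : 8 * ((a' + t) / 8) - t = a' := by ring
        have e2 : 8 * ((b' + t) / 8) - t = b' := by ring
        rw [e1, e2]
      calc 4 ^ (k + 1) * ENNReal.ofReal ((b' + t) / 8 - (a' + t) / 8)
          = 2⁻¹ * (4 ^ k * ENNReal.ofReal (b' - a')) := by
            have e3 : (b' + t) / 8 - (a' + t) / 8 = (8 : ℝ)⁻¹ * (b' - a') := by ring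
            rw [e3, ENNReal.ofReal_mul (by norm_num), ← four_eight, pow_succ]
            ring
        _ ≤ 2⁻¹ * ∫⁻ y in Ioo a' b', s m y := by gcongr
        _ = ∫⁻ y in Ioo ((a' + t) / 8) ((b' + t) / 8), 4 * s m (8 * y - t) := h4.symm
        _ ≤ _ := lintegral_mono ht
    rw [h_succ] at hx
    by_cases h1 : h k (8 * x - 1) = 0
    · have h2 : h k (8 * x - 6) ≠ 0 := by
        intro h2; exact hx (by rw [h1, h2, add_zero])
      exact key 6 (fun y => by rw [s_succ]; exact le_add_self) h2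
    · exact key 1 (fun y => by rw [s_succ]; exact le_self_add) h1

/-- the function -/
noncomputable def F (x : ℝ) : ℝ≥0∞ := ∑' j : ℕ, (2⁻¹ : ℝ≥0∞) ^ (j + 1) * s (8 ^ j) x

lemma measurable_F : Measurable F :=
  Measurable.ennreal_tsum fun j => (measurable_s _).const_mul _

lemma tsum_half : ∑' j : ℕ, (2⁻¹ : ℝ≥0∞) ^ (j + 1) = 1 := by
  rw [ENNReal.tsum_geometric_add_one, ENNReal.one_sub_inv_two, inv_inv,
    ENNReal.inv_mul_cancel (by norm_num) (by norm_num)]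

lemma lintegral_F : ∫⁻ x, F x = 1 := by
  unfold F
  rw [lintegral_tsum fun j => ((measurable_s _).const_mul _).aemeasurable, ← tsum_half]
  refine tsum_congr fun j => ?_
  rw [lintegral_const_mul _ (measurable_s _), lintegral_s, mul_one]

lemma F_ge (j : ℕ) (x : ℝ) : (2⁻¹ : ℝ≥0∞) ^ (j + 1) * s (8 ^ j) x ≤ F x :=
  ENNReal.le_tsum (f := fun j : ℕ => (2⁻¹ : ℝ≥0∞) ^ (j + 1) * s (8 ^ j) x) j

/-- the second weight -/
noncomputable def V (x : ℝ) : ℝ≥0∞ := (1 + F x)⁻¹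

lemma measurable_V : Measurable V := (measurable_const.add measurable_F).inv

lemma lintegral_sigma (a b : ℝ) : ∫⁻ x in Icc a b, (1 + F x) =
    ENNReal.ofReal (b - a) + ∑' j : ℕ, (2⁻¹ : ℝ≥0∞) ^ (j + 1) * S (8 ^ j) a b := by
  rw [lintegral_add_left measurable_const]
  congr 1
  · simp
  · unfold F S
    rw [lintegral_tsum fun j => ((measurable_s _).const_mul _).aemeasurable]
    refine tsum_congr fun j => ?_
    rw [lintegral_const_mul _ (measurable_s _)]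

lemma tailed (a b : ℝ) (hab : a < b) :
    Φ ((a + b) / 2) (b - a) * ∫⁻ x in Icc a b, (1 + F x) ≤ 204 := by
  rw [lintegral_sigma, mul_add, ← ENNReal.tsum_mul_left]
  have h1 := Φ_mul_le ((a + b) / 2) (b - a) (sub_pos.2 hab)
  have h2 : ∑' j : ℕ, Φ ((a + b) / 2) (b - a) * ((2⁻¹ : ℝ≥0∞) ^ (j + 1) * S (8 ^ j) a b) ≤
      ∑' j : ℕ, (2⁻¹ : ℝ≥0∞) ^ (j + 1) * 200 := by
    refine ENNReal.tsum_le_tsum fun j => ?_
    calc Φ ((a + b) / 2) (b - a) * ((2⁻¹ : ℝ≥0∞) ^ (j + 1) * S (8 ^ j) a b)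
        = (2⁻¹ : ℝ≥0∞) ^ (j + 1) * (Φ ((a + b) / 2) (b - a) * S (8 ^ j) a b) := by ring
      _ ≤ (2⁻¹ : ℝ≥0∞) ^ (j + 1) * ((Φ ((a + b) / 2) (b - a) + 100) * S (8 ^ j) a b) := by
          gcongr; exact le_self_add
      _ ≤ (2⁻¹ : ℝ≥0∞) ^ (j + 1) * 200 := by gcongr; exact main_ineq _ _ _ hab
  rw [ENNReal.tsum_mul_right, tsum_half, one_mul] at h2
  calc _ ≤ (4 : ℝ≥0∞) + 200 := add_le_add h1 h2
    _ = 204 := by norm_num

/-- the test function -/
noncomputable def f (x : ℝ) : ℝ := (F x).toReal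

lemma measurable_f : Measurable f := measurable_F.ennreal_toReal

lemma enorm_f_le (x : ℝ) : ‖f x‖ₑ ≤ F x := by
  unfold f
  rw [Real.enorm_of_nonneg ENNReal.toReal_nonneg]
  exact ENNReal.ofReal_toReal_le

lemma enorm_f_ae : (fun x => ‖f x‖ₑ) =ᵐ[volume] F := by
  have h1 : ∀ᵐ x, F x < ∞ := ae_lt_top measurable_F (by rw [lintegral_F]; exact ENNReal.one_ne_top)
  filter_upwards [h1] with x hx
  unfold f
  rw [Real.enorm_of_nonneg ENNReal.toReal_nonneg, ENNReal.ofReal_toReal hx.ne]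

lemma rhs_le : ∫⁻ x, ‖f x‖ₑ ^ 2 * V x ≤ 1 := by
  rw [← lintegral_F]
  apply lintegral_mono
  intro x
  show ‖f x‖ₑ ^ 2 * V x ≤ F x
  calc ‖f x‖ₑ ^ 2 * V x ≤ F x ^ 2 * V x := by gcongr; exact enorm_f_le x
    _ = F x * (F x * (1 + F x)⁻¹) := by unfold V; ring
    _ ≤ F x * ((1 + F x) * (1 + F x)⁻¹) := by gcongr; exact le_add_self
    _ ≤ F x * 1 := by gcongr; exact ENNReal.mul_inv_le_one _
    _ = F x := mul_one _

/-- the maximal function of `f` -/
noncomputable def Mf (x : ℝ) : ℝ≥0∞ := ⨆ a : ℝ, ⨆ b : ℝ, ⨆ (_ : a < x ∧ x < b),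
  ENNReal.ofReal (b - a)⁻¹ * ∫⁻ t in Set.Ioo a b, ‖f t‖ₑ

lemma Mf_ge (k j : ℕ) (hkj : k ≤ 8 ^ j) (x : ℝ) (hx : h k x ≠ 0) :
    (2⁻¹ : ℝ≥0∞) ^ (j + 1) * 4 ^ k ≤ Mf x := by
  obtain ⟨a, b, hax, hxb, hint⟩ := avg k (8 ^ j) hkj x hx
  have hab : 0 < b - a := by linarith
  have h1 : (2⁻¹ : ℝ≥0∞) ^ (j + 1) * (4 ^ k * ENNReal.ofReal (b - a)) ≤
      ∫⁻ t in Ioo a b, ‖f t‖ₑ := by
    calc (2⁻¹ : ℝ≥0∞) ^ (j + 1) * (4 ^ k * ENNReal.ofReal (b - a))
        ≤ (2⁻¹ : ℝ≥0∞) ^ (j + 1) * ∫⁻ t in Ioo a b, s (8 ^ j) t := by gcongr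
      _ = ∫⁻ t in Ioo a b, (2⁻¹ : ℝ≥0∞) ^ (j + 1) * s (8 ^ j) t :=
          (lintegral_const_mul _ (measurable_s _)).symm
      _ ≤ ∫⁻ t in Ioo a b, F t := lintegral_mono fun t => F_ge j t
      _ = ∫⁻ t in Ioo a b, ‖f t‖ₑ := (lintegral_congr_ae (ae_restrict_of_ae enorm_f_ae)).symm
  have h2 : ENNReal.ofReal (b - a)⁻¹ * ∫⁻ t in Set.Ioo a b, ‖f t‖ₑ ≤ Mf x := by
    unfold Mf
    exact le_iSup_of_le a (le_iSup_of_le b (le_iSup_of_le ⟨hax, hxb⟩ le_rfl))
  refine le_trans ?_ h2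
  calc (2⁻¹ : ℝ≥0∞) ^ (j + 1) * 4 ^ k
      = ENNReal.ofReal (b - a)⁻¹ * ((2⁻¹ : ℝ≥0∞) ^ (j + 1) * (4 ^ k * ENNReal.ofReal (b - a))) := by
        rw [ENNReal.ofReal_inv_of_pos hab]
        have h3 : (ENNReal.ofReal (b - a))⁻¹ * ENNReal.ofReal (b - a) = 1 :=
          ENNReal.inv_mul_cancel (by simpa using hab) ENNReal.ofReal_ne_top
        calc (2⁻¹ : ℝ≥0∞) ^ (j + 1) * 4 ^ k = (2⁻¹ : ℝ≥0∞) ^ (j + 1) * 4 ^ k * 1 := (mul_one _).symm
          _ = (2⁻¹ : ℝ≥0∞) ^ (j + 1) * 4 ^ k *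
              ((ENNReal.ofReal (b - a))⁻¹ * ENNReal.ofReal (b - a)) := by rw [h3]
          _ = _ := by ring
    _ ≤ _ := by gcongr

lemma lhs_ge (j : ℕ) : (2 : ℝ≥0∞) ^ j * 16⁻¹ ≤ ∫⁻ x, Mf x ^ 2 * U x := by
  have h1 : ∀ x, ∑ k ∈ Finset.range (8 ^ j), (4⁻¹ : ℝ≥0∞) ^ (j + 1) * (4 ^ k * h k x) ≤
      Mf x ^ 2 * U x := by
    intro x
    calc ∑ k ∈ Finset.range (8 ^ j), (4⁻¹ : ℝ≥0∞) ^ (j + 1) * (4 ^ k * h k x)
        ≤ ∑ k ∈ Finset.range (8 ^ j), Mf x ^ 2 * ((4⁻¹ : ℝ≥0∞) ^ k * h k x) := by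
          refine Finset.sum_le_sum fun k hk => ?_
          by_cases hx : h k x = 0
          · rw [hx]; simp
          · have h2 := Mf_ge k j (Finset.mem_range.1 hk).le x hx
            have h4 : (4 : ℝ≥0∞) ^ k * 4⁻¹ ^ k = 1 := by
              rw [← mul_pow, ENNReal.mul_inv_cancel (by norm_num) (by norm_num), one_pow]
            have h5 : (4⁻¹ : ℝ≥0∞) = 2⁻¹ ^ 2 := by
              rw [← ENNReal.inv_pow]; norm_num
            calc (4⁻¹ : ℝ≥0∞) ^ (j + 1) * (4 ^ k * h k x)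
                = (4⁻¹ : ℝ≥0∞) ^ (j + 1) * (4 ^ k * h k x) * 1 := (mul_one _).symm
              _ = (4⁻¹ : ℝ≥0∞) ^ (j + 1) * (4 ^ k * h k x) * (4 ^ k * 4⁻¹ ^ k) := by rw [h4]
              _ = ((2⁻¹ : ℝ≥0∞) ^ 2) ^ (j + 1) * (4 ^ k * h k x) * (4 ^ k * 4⁻¹ ^ k) := by
                  rw [← h5]
              _ = ((2⁻¹ : ℝ≥0∞) ^ (j + 1) * 4 ^ k) ^ 2 * ((4⁻¹ : ℝ≥0∞) ^ k * h k x) := by ring
              _ ≤ Mf x ^ 2 * ((4⁻¹ : ℝ≥0∞) ^ k * h k x) := by gcongr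
      _ = Mf x ^ 2 * ∑ k ∈ Finset.range (8 ^ j), (4⁻¹ : ℝ≥0∞) ^ k * h k x := by
          rw [Finset.mul_sum]
      _ ≤ Mf x ^ 2 * U x := by
          gcongr
          exact ENNReal.sum_le_tsum _
  calc (2 : ℝ≥0∞) ^ j * 16⁻¹ = ∑ k ∈ Finset.range (8 ^ j), (4⁻¹ : ℝ≥0∞) ^ (j + 1) * (4 ^ k * 4⁻¹ ^ (k + 1)) := by
        have h4 : ∀ k : ℕ, (4 : ℝ≥0∞) ^ k * 4⁻¹ ^ (k + 1) = 4⁻¹ := by
          intro k
          rw [pow_succ, ← mul_assoc, ← mul_pow, ENNReal.mul_inv_cancel (by norm_num) (by norm_num),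
            one_pow, one_mul]
        simp_rw [h4]
        rw [Finset.sum_const, Finset.card_range, nsmul_eq_mul]
        push_cast
        have h8 : (8 : ℝ≥0∞) = 2 * 4 := by norm_num
        have h16 : (16 : ℝ≥0∞)⁻¹ = 4⁻¹ * 4⁻¹ := by
          rw [← ENNReal.mul_inv (Or.inl (by norm_num)) (Or.inl (by norm_num))]; norm_num
        have h44 : (4 : ℝ≥0∞) ^ j * 4⁻¹ ^ j = 1 := by
          rw [← mul_pow, ENNReal.mul_inv_cancel (by norm_num) (by norm_num), one_pow]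
        rw [h8, mul_pow, h16]
        calc (2 : ℝ≥0∞) ^ j * (4⁻¹ * 4⁻¹) = 2 ^ j * (4⁻¹ * 4⁻¹) * 1 := (mul_one _).symm
          _ = 2 ^ j * (4⁻¹ * 4⁻¹) * ((4 : ℝ≥0∞) ^ j * 4⁻¹ ^ j) := by rw [h44]
          _ = _ := by rw [pow_succ]; ring
    _ = ∫⁻ x, ∑ k ∈ Finset.range (8 ^ j), (4⁻¹ : ℝ≥0∞) ^ (j + 1) * (4 ^ k * h k x) := by
        rw [lintegral_finset_sum _ fun k _ => ((measurable_h k).const_mul _).const_mul _]
        refine Finset.sum_congr rfl fun k _ => ?_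
        rw [lintegral_const_mul _ ((measurable_h k).const_mul _),
          lintegral_const_mul _ (measurable_h k), lintegral_h]
    _ ≤ _ := lintegral_mono h1

lemma lhs_top : ∫⁻ x, Mf x ^ 2 * U x = ∞ := by
  refine ENNReal.eq_top_of_forall_nnreal_le fun r => ?_
  obtain ⟨j, hj⟩ := pow_unbounded_of_one_lt (16 * r : ℝ≥0) (by norm_num : (1 : ℝ≥0) < 2)
  refine le_trans ?_ (lhs_ge j)
  have h1 : (16 * r : ℝ≥0∞) ≤ 2 ^ j := by exact_mod_cast hj.le
  calc (r : ℝ≥0∞) = (16 * r) * 16⁻¹ := by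
        rw [mul_comm (16 : ℝ≥0∞), mul_assoc, ENNReal.mul_inv_cancel (by norm_num) (by norm_num),
          mul_one]
    _ ≤ 2 ^ j * 16⁻¹ := by gcongr

end Pool.Agent.Y893.TW
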