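import Pool.Agent.Y893.TW.Gen2

/-!
# The counterexample satisfies the two-tailed condition
-/

set_option autoImplicit false

open MeasureTheory Set Filter Topology
open scoped ENNReal NNReal

namespace Pool.Agent.Y893.TWP

open Pool.Agent.Y893.TW (h s S h_succ s_succ measurable_h measurable_s h_supp s_supp lintegral_s
  lintegral_h h_le_one S_le_one S_succ S_zero S_zero_le meas_aff lintegral_affine avg tsum_half
  four_eight)

/-- the kernel of the second tail -/
noncomputable def κ (r c l x : ℝ) : ℝ≥0∞ := ENNReal.ofReal (l ^ r / (l ^ r + |x - c| ^ r))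

lemma measurable_κ (r c l : ℝ) : Measurable (κ r c l) := by
  unfold κ
  fun_prop

lemma κ_le_one (r c l x : ℝ) (hl : 0 < l) : κ r c l x ≤ 1 := by
  unfold κ
  rw [ENNReal.ofReal_le_one]
  have h1 : 0 < l ^ r := by positivity
  have h2 : 0 ≤ |x - c| ^ r := by positivity
  rw [div_le_one (by positivity)]
  linarith

lemma κ_scale (r c l x t : ℝ) (hl : 0 < l) : κ r c l x = κ r (8 * c - t) (8 * l) (8 * x - t) := by
  unfold κ
  congr 1
  have e0 : |(8 * x - t) - (8 * c - t)| = 8 * |x - c| := by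
    rw [show (8 * x - t) - (8 * c - t) = 8 * (x - c) by ring, abs_mul]
    norm_num
  rw [e0, Real.mul_rpow (by norm_num) hl.le, Real.mul_rpow (by norm_num) (abs_nonneg _), ← mul_add,
    mul_div_mul_left _ _ (by positivity)]

/-- the tailed mass -/
noncomputable def T (r : ℝ) (n : ℕ) (c l : ℝ) : ℝ≥0∞ := ∫⁻ x, κ r c l x * s n x

lemma T_le_one (r : ℝ) (n : ℕ) (c l : ℝ) (hl : 0 < l) : T r n c l ≤ 1 := by
  unfold T
  rw [← lintegral_s n]
  apply lintegral_mono
  intro x
  show κ r c l x * s n x ≤ s n x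
  calc κ r c l x * s n x ≤ 1 * s n x := by gcongr; exact κ_le_one r c l x hl
    _ = s n x := one_mul _

lemma T_succ (r : ℝ) (n : ℕ) (c l : ℝ) (hl : 0 < l) :
    T r (n + 1) c l = 2⁻¹ * T r n (8 * c - 1) (8 * l) + 2⁻¹ * T r n (8 * c - 6) (8 * l) := by
  have hm := measurable_s n
  have key : ∀ t : ℝ, ∫⁻ x, 4 * (κ r (8 * c - t) (8 * l) (8 * x - t) * s n (8 * x - t)) =
      2⁻¹ * T r n (8 * c - t) (8 * l) := by
    intro t
    have hm2 : Measurable fun y => κ r (8 * c - t) (8 * l) y * s n y :=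
      (measurable_κ _ _ _).mul hm
    rw [lintegral_const_mul _ (meas_aff hm2 8 t), lintegral_affine _ hm2 8 t (by norm_num),
      ← mul_assoc, four_eight]
    rfl
  have m1 : Measurable fun x : ℝ =>
      4 * (κ r (8 * c - 1) (8 * l) (8 * x - 1) * s n (8 * x - 1)) :=
    (meas_aff (f := fun y => κ r (8 * c - 1) (8 * l) y * s n y)
      ((measurable_κ _ _ _).mul hm) 8 1).const_mul 4
  rw [← key 1, ← key 6, ← lintegral_add_left m1]
  unfold T
  refine lintegral_congr fun x => ?_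
  rw [s_succ, ← κ_scale r c l x 1 hl, ← κ_scale r c l x 6 hl]
  ring

lemma T_far (r : ℝ) (hr : 1 < r) (n : ℕ) (c l δ : ℝ) (hl : 0 < l) (hδ : 0 < δ)
    (H : ∀ x : ℝ, 0 ≤ x → x < 1 → δ ≤ |x - c|) : T r n c l ≤ ENNReal.ofReal ((l / δ) ^ r) := by
  unfold T
  calc ∫⁻ x, κ r c l x * s n x ≤ ∫⁻ x, ENNReal.ofReal ((l / δ) ^ r) * s n x := by
        apply lintegral_mono
        intro x
        show κ r c l x * s n x ≤ ENNReal.ofReal ((l / δ) ^ r) * s n x
        by_cases hx : s n x = 0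
        · simp [hx]
        · have h1 := s_supp n x hx
          have h2 := H x h1.1 h1.2
          gcongr
          unfold κ
          apply ENNReal.ofReal_le_ofReal
          rw [Real.div_rpow hl.le hδ.le]
          have h3 : δ ^ r ≤ |x - c| ^ r := Real.rpow_le_rpow hδ.le h2 (by linarith)
          have h4 : 0 < l ^ r := by positivity
          have h5 : 0 < δ ^ r := by positivity
          apply div_le_div_of_nonneg_left h4.le h5
          linarith
    _ = ENNReal.ofReal ((l / δ) ^ r) := by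
        rw [lintegral_const_mul _ (measurable_s n), lintegral_s, mul_one]

lemma lintegral_κ (r c l : ℝ) (hl : 0 < l) : ∫⁻ x, κ r c l x = ENNReal.ofReal l * Cp r := by
  have hm : Measurable fun y : ℝ => ENNReal.ofReal ((1 + |y| ^ r)⁻¹) := by fun_prop
  have h1 : ∀ x, κ r c l x = ENNReal.ofReal ((1 + |l⁻¹ * x - c / l| ^ r)⁻¹) := by
    intro x
    unfold κ
    congr 1
    have e0 : |l⁻¹ * x - c / l| = l⁻¹ * |x - c| := by
      rw [show l⁻¹ * x - c / l = l⁻¹ * (x - c) by ring, abs_mul, abs_of_pos (inv_pos.2 hl)]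
    have hlp : 0 < l ^ r := by positivity
    rw [e0, Real.mul_rpow (by positivity) (abs_nonneg _), Real.inv_rpow hl.le]
    field_simp
  simp_rw [h1]
  rw [lintegral_affine _ hm l⁻¹ (c / l) (inv_pos.2 hl), inv_inv]
  rfl

lemma T_zero_le (r c l : ℝ) (hl : 0 < l) : T r 0 c l ≤ ENNReal.ofReal l * Cp r := by
  rw [← lintegral_κ r c l hl]
  unfold T
  apply lintegral_mono
  intro x
  show κ r c l x * s 0 x ≤ κ r c l x
  have h1 : s 0 x ≤ 1 := by
    show (Ico (0 : ℝ) 1).indicator 1 x ≤ 1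
    by_cases hx : x ∈ Ico (0 : ℝ) 1
    · rw [indicator_of_mem hx]; simp
    · rw [indicator_of_notMem hx]; simp
  calc κ r c l x * s 0 x ≤ κ r c l x * 1 := by gcongr
    _ = _ := mul_one _

lemma add_rpow_le (a b : ℝ≥0∞) (e : ℝ) (he : 0 ≤ e) : (a + b) ^ e ≤ 2 ^ e * (a ^ e + b ^ e) := by
  have h1 : a + b ≤ 2 * max a b := by
    rw [two_mul]
    exact add_le_add (le_max_left _ _) (le_max_right _ _)
  calc (a + b) ^ e ≤ (2 * max a b) ^ e := ENNReal.rpow_le_rpow h1 he
    _ = 2 ^ e * (max a b) ^ e := ENNReal.mul_rpow_of_nonneg _ _ he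
    _ ≤ 2 ^ e * (a ^ e + b ^ e) := by
      gcongr
      rcases le_total a b with hab | hab
      · rw [max_eq_right hab]; exact le_add_self
      · rw [max_eq_left hab]; exact le_self_add

/-- the constant of the root -/
noncomputable def E (p : ℝ) : ℝ≥0∞ :=
  2 ^ (1 / (p - 1)) * (Cp p ^ (1 / (p - 1)) + ENNReal.ofReal (K0 p) ^ (1 / (p - 1)))

/-- the root of the tail -/
noncomputable def φ (p c l : ℝ) : ℝ≥0∞ := (Φ p c l + ENNReal.ofReal (K0 p)) ^ (1 / (p - 1))

lemma Φ_root (p : ℝ) (hp : 1 < p) (c l : ℝ) (hl : 0 < l) :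
    Φ p c l ^ (1 / (p - 1)) * ENNReal.ofReal l ≤ Cp p ^ (1 / (p - 1)) :=
  root_le p hp _ _ _ (Φ_mul_le p hp c l hl)

lemma φ_mul_le (p : ℝ) (hp : 1 < p) (c l : ℝ) (hl : 0 < l) (hl1 : l ≤ 1) :
    φ p c l * ENNReal.ofReal l ≤ E p := by
  have hq : 0 < p - 1 := by linarith
  have he : 0 ≤ 1 / (p - 1) := by positivity
  unfold φ E
  calc (Φ p c l + ENNReal.ofReal (K0 p)) ^ (1 / (p - 1)) * ENNReal.ofReal l
      ≤ (2 ^ (1 / (p - 1)) * (Φ p c l ^ (1 / (p - 1)) + ENNReal.ofReal (K0 p) ^ (1 / (p - 1)))) *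
        ENNReal.ofReal l := by gcongr; exact add_rpow_le _ _ _ he
    _ = 2 ^ (1 / (p - 1)) * (Φ p c l ^ (1 / (p - 1)) * ENNReal.ofReal l +
        ENNReal.ofReal (K0 p) ^ (1 / (p - 1)) * ENNReal.ofReal l) := by ring
    _ ≤ 2 ^ (1 / (p - 1)) * (Cp p ^ (1 / (p - 1)) +
        ENNReal.ofReal (K0 p) ^ (1 / (p - 1)) * 1) := by
        gcongr
        · exact Φ_root p hp c l hl
        · exact ENNReal.ofReal_le_one.2 hl1
    _ = _ := by rw [mul_one]

/-- the doubling of the root -/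
lemma φ_step (p : ℝ) (hp : 1 < p) (P M A B : ℝ≥0∞) (hM : M ≤ ENNReal.ofReal (M0 p))
    (hB : B ≤ 1) (hP : P = M + (τ p * A + τ p * B)) :
    (P + ENNReal.ofReal (K0 p)) ^ (1 / (p - 1)) * 2⁻¹ ≤ (A + ENNReal.ofReal (K0 p)) ^ (1 / (p - 1)) := by
  have hq : 0 < p - 1 := by linarith
  have he : 0 ≤ 1 / (p - 1) := by positivity
  have h1 : P + ENNReal.ofReal (K0 p) ≤ τ p * (A + ENNReal.ofReal (K0 p)) := by
    calc P + ENNReal.ofReal (K0 p) ≤ (ENNReal.ofReal (M0 p) + (τ p * A + τ p * 1)) +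
          ENNReal.ofReal (K0 p) := by rw [hP]; gcongr
      _ = τ p * A + (ENNReal.ofReal (M0 p) + τ p + ENNReal.ofReal (K0 p)) := by ring
      _ ≤ τ p * A + τ p * ENNReal.ofReal (K0 p) := by gcongr; exact K0_eq p hp
      _ = _ := by ring
  have h2 : τ p ^ (1 / (p - 1)) = 2 := by
    unfold τ
    rw [ENNReal.ofReal_rpow_of_pos (by positivity), ← Real.rpow_mul (by norm_num),
      mul_one_div_cancel hq.ne', Real.rpow_one]
    norm_num
  calc (P + ENNReal.ofReal (K0 p)) ^ (1 / (p - 1)) * 2⁻¹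
      ≤ (τ p * (A + ENNReal.ofReal (K0 p))) ^ (1 / (p - 1)) * 2⁻¹ := by gcongr
    _ = (2 * 2⁻¹) * (A + ENNReal.ofReal (K0 p)) ^ (1 / (p - 1)) := by
        rw [ENNReal.mul_rpow_of_nonneg _ _ he, h2]; ring
    _ = _ := by rw [ENNReal.mul_inv_cancel (by norm_num) (by norm_num), one_mul]

/-- the real factor -/
noncomputable def α (r : ℝ) : ℝ := 8 ^ (r - 1) / (8 ^ (r - 1) - 1)

lemma α_eq (r : ℝ) (hr : 1 < r) (E' : ℝ≥0∞) :
    E' * ENNReal.ofReal (8 ^ (r - 1)) + E' * ENNReal.ofReal (α r) ≤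
      E' * ENNReal.ofReal (α r) * ENNReal.ofReal (8 ^ (r - 1)) := by
  have h1 : (1 : ℝ) < 8 ^ (r - 1) := Real.one_lt_rpow (by norm_num) (by linarith)
  have hα : 0 ≤ α r := by
    unfold α
    apply div_nonneg <;> linarith
  rw [← mul_add, mul_assoc, ← ENNReal.ofReal_mul hα, ← ENNReal.ofReal_add (by positivity) hα]
  gcongr
  have : α r * (8 ^ (r - 1) - 1) = 8 ^ (r - 1) := by
    unfold α
    exact div_mul_cancel₀ _ (by linarith)
  linarith

/-- the constant of the two-tailed condition -/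
noncomputable def D2 (p r : ℝ) : ℝ≥0∞ :=
  (ENNReal.ofReal (8 ^ p) + ENNReal.ofReal (K0 p)) ^ (1 / (p - 1)) + E p * ENNReal.ofReal (α r) +
  E p * ENNReal.ofReal (16 ^ r) +
  2 ^ (1 / (p - 1)) * (Cp p ^ (1 / (p - 1)) * Cp r + ENNReal.ofReal (K0 p) ^ (1 / (p - 1)))

lemma step_two (p r : ℝ) (hr : 1 < r) (P φ' T' T'' G A' : ℝ≥0∞) (l : ℝ) (hl : 0 < l)
    (hφ : P * 2⁻¹ ≤ φ') (hφE : φ' * ENNReal.ofReal (8 * l) ≤ E p)
    (hT : T'' ≤ ENNReal.ofReal ((8 * l) ^ r)) (hA : A' = E p * ENNReal.ofReal (α r))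
    (hG : φ' * T' + A' * ENNReal.ofReal ((8 * l) ^ (r - 1)) ≤ G) :
    P * (2⁻¹ * T' + 2⁻¹ * T'') + A' * ENNReal.ofReal (l ^ (r - 1)) ≤ G := by
  have h8l : (0 : ℝ) < 8 * l := by positivity
  have e1 : ENNReal.ofReal ((8 * l) ^ r) =
      ENNReal.ofReal (8 * l) * ENNReal.ofReal ((8 * l) ^ (r - 1)) := by
    rw [← ENNReal.ofReal_mul h8l.le]
    congr 1
    rw [Real.rpow_sub_one h8l.ne']
    field_simp
  have e2 : ENNReal.ofReal ((8 * l) ^ (r - 1)) =
      ENNReal.ofReal (8 ^ (r - 1)) * ENNReal.ofReal (l ^ (r - 1)) := by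
    rw [← ENNReal.ofReal_mul (by positivity), Real.mul_rpow (by norm_num) hl.le]
  calc P * (2⁻¹ * T' + 2⁻¹ * T'') + A' * ENNReal.ofReal (l ^ (r - 1))
      = (P * 2⁻¹) * T' + (P * 2⁻¹) * T'' + A' * ENNReal.ofReal (l ^ (r - 1)) := by ring
    _ ≤ φ' * T' + φ' * ENNReal.ofReal ((8 * l) ^ r) + A' * ENNReal.ofReal (l ^ (r - 1)) := by
        gcongr
    _ = φ' * T' + (φ' * ENNReal.ofReal (8 * l)) * ENNReal.ofReal ((8 * l) ^ (r - 1)) +
        A' * ENNReal.ofReal (l ^ (r - 1)) := by rw [e1]; ring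
    _ ≤ φ' * T' + E p * ENNReal.ofReal ((8 * l) ^ (r - 1)) +
        A' * ENNReal.ofReal (l ^ (r - 1)) := by gcongr
    _ = φ' * T' + (E p * ENNReal.ofReal (8 ^ (r - 1)) + E p * ENNReal.ofReal (α r)) *
        ENNReal.ofReal (l ^ (r - 1)) := by rw [e2, hA]; ring
    _ ≤ φ' * T' + (E p * ENNReal.ofReal (α r) * ENNReal.ofReal (8 ^ (r - 1))) *
        ENNReal.ofReal (l ^ (r - 1)) := by gcongr; exact α_eq r hr _
    _ = φ' * T' + A' * ENNReal.ofReal ((8 * l) ^ (r - 1)) := by rw [e2, hA]; ring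
    _ ≤ G := hG

/-- the two-tailed condition uniformly in the generation -/
lemma main_two (p r : ℝ) (hp : 1 < p) (hr : 1 < r) (n : ℕ) (c l : ℝ) (hl : 0 < l) (hl1 : l ≤ 1) :
    φ p c l * T r n c l + E p * ENNReal.ofReal (α r) * ENNReal.ofReal (l ^ (r - 1)) ≤ D2 p r := by
  have hq : 0 < p - 1 := by linarith
  have he : 0 ≤ 1 / (p - 1) := by positivity
  have hlr : ENNReal.ofReal (l ^ (r - 1)) ≤ 1 := by
    rw [ENNReal.ofReal_le_one]
    exact Real.rpow_le_one hl.le hl1 (by linarith)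
  induction n generalizing c l with
  | zero =>
    have h1 : φ p c l * T r 0 c l ≤ 2 ^ (1 / (p - 1)) *
        (Cp p ^ (1 / (p - 1)) * Cp r + ENNReal.ofReal (K0 p) ^ (1 / (p - 1))) := by
      calc φ p c l * T r 0 c l
          ≤ (2 ^ (1 / (p - 1)) * (Φ p c l ^ (1 / (p - 1)) +
            ENNReal.ofReal (K0 p) ^ (1 / (p - 1)))) * T r 0 c l := by
            gcongr
            exact add_rpow_le _ _ _ he
        _ = 2 ^ (1 / (p - 1)) * (Φ p c l ^ (1 / (p - 1)) * T r 0 c l +
            ENNReal.ofReal (K0 p) ^ (1 / (p - 1)) * T r 0 c l) := by ring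
        _ ≤ 2 ^ (1 / (p - 1)) * (Φ p c l ^ (1 / (p - 1)) * (ENNReal.ofReal l * Cp r) +
            ENNReal.ofReal (K0 p) ^ (1 / (p - 1)) * 1) := by
            gcongr
            · exact T_zero_le r c l hl
            · exact T_le_one r 0 c l hl
        _ = 2 ^ (1 / (p - 1)) * ((Φ p c l ^ (1 / (p - 1)) * ENNReal.ofReal l) * Cp r +
            ENNReal.ofReal (K0 p) ^ (1 / (p - 1))) := by ring
        _ ≤ _ := by
            gcongr
            exact Φ_root p hp c l hl
    calc φ p c l * T r 0 c l + E p * ENNReal.ofReal (α r) * ENNReal.ofReal (l ^ (r - 1))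
        ≤ 2 ^ (1 / (p - 1)) *
          (Cp p ^ (1 / (p - 1)) * Cp r + ENNReal.ofReal (K0 p) ^ (1 / (p - 1))) +
          E p * ENNReal.ofReal (α r) * 1 := by gcongr
      _ ≤ D2 p r := by
          unfold D2
          rw [mul_one]
          calc _ ≤ (ENNReal.ofReal (8 ^ p) + ENNReal.ofReal (K0 p)) ^ (1 / (p - 1)) +
                E p * ENNReal.ofReal (16 ^ r) + (2 ^ (1 / (p - 1)) *
                (Cp p ^ (1 / (p - 1)) * Cp r + ENNReal.ofReal (K0 p) ^ (1 / (p - 1))) +
                E p * ENNReal.ofReal (α r)) := le_add_self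
            _ = _ := by ring
  | succ n ih =>
    by_cases hl8 : 1 / 8 ≤ l
    · have h1 : Φ p c l ≤ ENNReal.ofReal ((1 / 8 : ℝ) ^ p)⁻¹ := by
        apply Φ_le_of p hp _ _ _ (by positivity)
        intro x _ _
        have a1 : ((1 : ℝ) / 8) ^ p ≤ l ^ p := Real.rpow_le_rpow (by norm_num) hl8 (by linarith)
        have a2 : 0 ≤ |x - c| ^ p := by positivity
        linarith
      have h2 : ((1 / 8 : ℝ) ^ p)⁻¹ = 8 ^ p := by
        rw [one_div, Real.inv_rpow (by norm_num), inv_inv]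
      rw [h2] at h1
      calc φ p c l * T r (n + 1) c l + E p * ENNReal.ofReal (α r) * ENNReal.ofReal (l ^ (r - 1))
          ≤ (ENNReal.ofReal (8 ^ p) + ENNReal.ofReal (K0 p)) ^ (1 / (p - 1)) * 1 +
            E p * ENNReal.ofReal (α r) * 1 := by
            unfold φ
            gcongr
            exact T_le_one r _ c l hl
        _ ≤ D2 p r := by
            unfold D2
            rw [mul_one, mul_one, add_assoc]
            exact le_self_add
    · push Not at hl8
      have h8l : (0 : ℝ) < 8 * l := by linarith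
      have h8l1 : 8 * l ≤ 1 := by linarith
      have h8r : ENNReal.ofReal ((8 * l) ^ (r - 1)) ≤ 1 := by
        rw [ENNReal.ofReal_le_one]
        exact Real.rpow_le_one h8l.le h8l1 (by linarith)
      have i1 := ih (8 * c - 1) (8 * l) h8l h8l1 h8r
      have i2 := ih (8 * c - 6) (8 * l) h8l h8l1 h8r
      have one_of : ∀ c : ℝ, (∀ x : ℝ, 0 ≤ x → x < 1 → 1 ≤ |x - c|) → Φ p c (8 * l) ≤ 1 := by
        intro c hc
        have := Φ_le_of p hp c (8 * l) 1 one_pos (fun x h1 h2 => by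
          have h3 := hc x h1 h2
          have h4 : 1 ≤ |x - c| ^ p := Real.one_le_rpow h3 (by linarith)
          have h5 : 0 ≤ (8 * l) ^ p := Real.rpow_nonneg h8l.le p
          linarith)
        simpa using this
      have far_of : ∀ c : ℝ, (∀ x : ℝ, 0 ≤ x → x < 1 → 1 ≤ |x - c|) →
          T r n c (8 * l) ≤ ENNReal.ofReal ((8 * l) ^ r) := by
        intro c hc
        have := T_far r hr n c (8 * l) 1 h8l one_pos hc
        rwa [div_one] at this
      by_cases c1 : c ≤ 5 / 16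
      · have hd : ∀ x : ℝ, 0 ≤ x → x < 1 → 1 ≤ |x - (8 * c - 6)| := by
          intro x hx1 hx2
          rw [le_abs]; left; linarith
        rw [T_succ r n c l hl]
        refine step_two p r hr (φ p c l) (φ p (8 * c - 1) (8 * l)) _ _ _ _ l hl ?_
          (φ_mul_le p hp _ _ h8l h8l1) (far_of _ hd) rfl i1
        refine φ_step p hp _ _ _ _ (mid_le p c l hl.le ?_ hp) (one_of _ hd) (Φ_eq p c l hl.le)
        intro x hx1 hx2
        rw [le_abs]; left; linarith
      · by_cases c2 : 11 / 16 ≤ c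
        · have hd : ∀ x : ℝ, 0 ≤ x → x < 1 → 1 ≤ |x - (8 * c - 1)| := by
            intro x hx1 hx2
            rw [le_abs]; right; linarith
          rw [T_succ r n c l hl, add_comm (2⁻¹ * T r n (8 * c - 1) (8 * l))]
          refine step_two p r hr (φ p c l) (φ p (8 * c - 6) (8 * l)) _ _ _ _ l hl ?_
            (φ_mul_le p hp _ _ h8l h8l1) (far_of _ hd) rfl i2
          have hP : Φ p c l = (∫⁻ x, h 0 x / ENNReal.ofReal (l ^ p + |x - c| ^ p)) +
              (τ p * Φ p (8 * c - 6) (8 * l) + τ p * Φ p (8 * c - 1) (8 * l)) := by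
            rw [Φ_eq p c l hl.le, add_comm (τ p * Φ p (8 * c - 1) (8 * l))]
          refine φ_step p hp _ _ _ _ (mid_le p c l hl.le ?_ hp) (one_of _ hd) hP
          intro x hx1 hx2
          rw [le_abs]; right; linarith
        · push Not at c1 c2
          have g1 : T r n (8 * c - 1) (8 * l) ≤ ENNReal.ofReal ((8 * l / (1 / 2)) ^ r) := by
            apply T_far r hr n _ _ _ h8l (by norm_num)
            intro x hx1 hx2
            rw [le_abs]; right; linarith
          have g2 : T r n (8 * c - 6) (8 * l) ≤ ENNReal.ofReal ((8 * l / (1 / 2)) ^ r) := by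
            apply T_far r hr n _ _ _ h8l (by norm_num)
            intro x hx1 hx2
            rw [le_abs]; left; linarith
          have e16 : ENNReal.ofReal ((8 * l / (1 / 2)) ^ r) =
              ENNReal.ofReal (16 ^ r) * (ENNReal.ofReal l * ENNReal.ofReal (l ^ (r - 1))) := by
            rw [← ENNReal.ofReal_mul hl.le, ← ENNReal.ofReal_mul (by positivity)]
            congr 1
            rw [show 8 * l / (1 / 2) = 16 * l by ring, Real.mul_rpow (by norm_num) hl.le]
            congr 1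
            rw [Real.rpow_sub_one hl.ne']
            field_simp
          have gT : T r (n + 1) c l ≤
              ENNReal.ofReal (16 ^ r) * (ENNReal.ofReal l * ENNReal.ofReal (l ^ (r - 1))) := by
            rw [T_succ r n c l hl, ← e16]
            calc _ ≤ 2⁻¹ * ENNReal.ofReal ((8 * l / (1 / 2)) ^ r) +
                  2⁻¹ * ENNReal.ofReal ((8 * l / (1 / 2)) ^ r) := by gcongr
              _ = _ := by rw [← add_mul, ENNReal.inv_two_add_inv_two, one_mul]
          calc φ p c l * T r (n + 1) c l +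
                E p * ENNReal.ofReal (α r) * ENNReal.ofReal (l ^ (r - 1))
              ≤ φ p c l * (ENNReal.ofReal (16 ^ r) * (ENNReal.ofReal l * 1)) +
                E p * ENNReal.ofReal (α r) * 1 := by
                gcongr
                exact gT.trans (by gcongr)
            _ = (φ p c l * ENNReal.ofReal l) * ENNReal.ofReal (16 ^ r) +
                E p * ENNReal.ofReal (α r) := by ring
            _ ≤ E p * ENNReal.ofReal (16 ^ r) + E p * ENNReal.ofReal (α r) := by
                gcongr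
                exact φ_mul_le p hp c l hl hl1
            _ ≤ D2 p r := by
                unfold D2
                calc _ ≤ (ENNReal.ofReal (8 ^ p) + ENNReal.ofReal (K0 p)) ^ (1 / (p - 1)) +
                      2 ^ (1 / (p - 1)) * (Cp p ^ (1 / (p - 1)) * Cp r +
                      ENNReal.ofReal (K0 p) ^ (1 / (p - 1))) +
                      (E p * ENNReal.ofReal (16 ^ r) + E p * ENNReal.ofReal (α r)) := le_add_self
                  _ = _ := by ring

end Pool.Agent.Y893.TWP
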