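import Pool.Agent.Y893.TW.Two

/-!
# The counterexample satisfies the two-tailed condition, conclusion
-/

set_option autoImplicit false

open MeasureTheory Set Filter Topology
open scoped ENNReal NNReal

namespace Pool.Agent.Y893.TWP

open Pool.Agent.Y893.TW (h s S measurable_s lintegral_s tsum_half)

lemma ΦT_le (p r : ℝ) (hp : 1 < p) (hr : 1 < r) (n : ℕ) (c l : ℝ) (hl : 0 < l) :
    Φ p c l ^ (1 / (p - 1)) * T r n c l ≤ D2 p r := by
  have hq : 0 < p - 1 := by linarith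
  have he : 0 ≤ 1 / (p - 1) := by positivity
  by_cases hl1 : l ≤ 1
  · refine le_trans ?_ (main_two p r hp hr n c l hl hl1)
    calc Φ p c l ^ (1 / (p - 1)) * T r n c l ≤ φ p c l * T r n c l := by
          unfold φ
          gcongr
          exact le_self_add
      _ ≤ _ := le_self_add
  · push Not at hl1
    have h1 : Φ p c l ≤ ENNReal.ofReal ((1 / 8 : ℝ) ^ p)⁻¹ := by
      apply Φ_le_of p hp _ _ _ (by positivity)
      intro x _ _
      have a1 : ((1 : ℝ) / 8) ^ p ≤ l ^ p :=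
        Real.rpow_le_rpow (by norm_num) (by linarith) (by linarith)
      have a2 : 0 ≤ |x - c| ^ p := by positivity
      linarith
    have h2 : ((1 / 8 : ℝ) ^ p)⁻¹ = 8 ^ p := by
      rw [one_div, Real.inv_rpow (by norm_num), inv_inv]
    rw [h2] at h1
    calc Φ p c l ^ (1 / (p - 1)) * T r n c l
        ≤ (ENNReal.ofReal (8 ^ p) + ENNReal.ofReal (K0 p)) ^ (1 / (p - 1)) * 1 := by
          gcongr
          · exact h1.trans le_self_add
          · exact T_le_one r _ c l hl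
      _ ≤ D2 p r := by
          unfold D2
          rw [mul_one, add_assoc, add_assoc]
          exact le_self_add

lemma lintegral_κσ (r : ℝ) (N : ℕ) (c l : ℝ) (hl : 0 < l) : ∫⁻ x, κ r c l x * (1 + F N x) =
    ENNReal.ofReal l * Cp r + ∑' j : ℕ, (2⁻¹ : ℝ≥0∞) ^ (j + 1) * T r (2 ^ (N * j)) c l := by
  have e : ∀ x, κ r c l x * (1 + F N x) = κ r c l x + κ r c l x * F N x := by
    intro x; rw [mul_add, mul_one]
  simp_rw [e]
  rw [lintegral_add_left (measurable_κ r c l), lintegral_κ r c l hl]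
  congr 1
  unfold F T
  have e2 : ∀ x, κ r c l x * ∑' j : ℕ, (2⁻¹ : ℝ≥0∞) ^ (j + 1) * s (2 ^ (N * j)) x =
      ∑' j : ℕ, (2⁻¹ : ℝ≥0∞) ^ (j + 1) * (κ r c l x * s (2 ^ (N * j)) x) := by
    intro x
    rw [← ENNReal.tsum_mul_left]
    exact tsum_congr fun j => by ring
  simp_rw [e2]
  have hms : ∀ j : ℕ, Measurable fun x => κ r c l x * s (2 ^ (N * j)) x :=
    fun j => (measurable_κ r c l).mul (measurable_s _)
  rw [lintegral_tsum fun j => ((hms j).const_mul _).aemeasurable]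
  refine tsum_congr fun j => ?_
  rw [lintegral_const_mul _ (hms j)]

lemma two_tailed (p r : ℝ) (hp : 1 < p) (hr : 1 < r) (N : ℕ) (c l : ℝ) (hl : 0 < l) :
    Φ p c l * (∫⁻ x, κ r c l x * (1 + F N x)) ^ (p - 1) ≤
      (Cp p ^ (1 / (p - 1)) * Cp r + D2 p r) ^ (p - 1) := by
  have hq : 0 < p - 1 := by linarith
  have h2 : Φ p c l ^ (1 / (p - 1)) * ∫⁻ x, κ r c l x * (1 + F N x) ≤
      Cp p ^ (1 / (p - 1)) * Cp r + D2 p r := by
    rw [lintegral_κσ r N c l hl, mul_add, ← ENNReal.tsum_mul_left, ← mul_assoc]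
    refine add_le_add (by gcongr; exact Φ_root p hp c l hl) ?_
    calc ∑' j : ℕ, Φ p c l ^ (1 / (p - 1)) * ((2⁻¹ : ℝ≥0∞) ^ (j + 1) * T r (2 ^ (N * j)) c l)
        ≤ ∑' j : ℕ, (2⁻¹ : ℝ≥0∞) ^ (j + 1) * D2 p r := by
          refine ENNReal.tsum_le_tsum fun j => ?_
          calc Φ p c l ^ (1 / (p - 1)) * ((2⁻¹ : ℝ≥0∞) ^ (j + 1) * T r (2 ^ (N * j)) c l)
              = (2⁻¹ : ℝ≥0∞) ^ (j + 1) * (Φ p c l ^ (1 / (p - 1)) * T r (2 ^ (N * j)) c l) := by ring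
            _ ≤ _ := by gcongr; exact ΦT_le p r hp hr _ c l hl
      _ = D2 p r := by rw [ENNReal.tsum_mul_right, tsum_half, one_mul]
  have h3 : (Φ p c l ^ (1 / (p - 1)) * ∫⁻ x, κ r c l x * (1 + F N x)) ^ (p - 1) ≤
      (Cp p ^ (1 / (p - 1)) * Cp r + D2 p r) ^ (p - 1) := ENNReal.rpow_le_rpow h2 hq.le
  rw [ENNReal.mul_rpow_of_nonneg _ _ hq.le, ← ENNReal.rpow_mul, one_div_mul_cancel hq.ne',
    ENNReal.rpow_one] at h3
  exact h3

lemma E_lt_top (p : ℝ) (hp : 1 < p) : E p < ∞ := by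
  have hq : 0 < p - 1 := by linarith
  have he : 0 ≤ 1 / (p - 1) := by positivity
  unfold E
  refine ENNReal.mul_lt_top (ENNReal.rpow_lt_top_of_nonneg he (by norm_num)) ?_
  exact ENNReal.add_lt_top.2 ⟨ENNReal.rpow_lt_top_of_nonneg he (Cp_lt_top p hp).ne,
    ENNReal.rpow_lt_top_of_nonneg he ENNReal.ofReal_ne_top⟩

lemma B2_lt_top (p r : ℝ) (hp : 1 < p) (hr : 1 < r) :
    (Cp p ^ (1 / (p - 1)) * Cp r + D2 p r) ^ (p - 1) < ∞ := by
  have hq : 0 < p - 1 := by linarith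
  have he : 0 ≤ 1 / (p - 1) := by positivity
  have h1 : Cp p ^ (1 / (p - 1)) * Cp r < ∞ :=
    ENNReal.mul_lt_top (ENNReal.rpow_lt_top_of_nonneg he (Cp_lt_top p hp).ne) (Cp_lt_top r hr)
  have hE := E_lt_top p hp
  apply ENNReal.rpow_lt_top_of_nonneg hq.le
  refine (ENNReal.add_lt_top.2 ⟨h1, ?_⟩).ne
  unfold D2
  refine ENNReal.add_lt_top.2 ⟨ENNReal.add_lt_top.2 ⟨ENNReal.add_lt_top.2 ⟨?_, ?_⟩, ?_⟩, ?_⟩
  · exact ENNReal.rpow_lt_top_of_nonneg he
      (ENNReal.add_lt_top.2 ⟨ENNReal.ofReal_lt_top, ENNReal.ofReal_lt_top⟩).ne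
  · exact ENNReal.mul_lt_top hE ENNReal.ofReal_lt_top
  · exact ENNReal.mul_lt_top hE ENNReal.ofReal_lt_top
  · exact ENNReal.mul_lt_top (ENNReal.rpow_lt_top_of_nonneg he (by norm_num))
      (ENNReal.add_lt_top.2 ⟨h1, ENNReal.rpow_lt_top_of_nonneg he ENNReal.ofReal_ne_top⟩)

end Pool.Agent.Y893.TWP
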